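import Pool.Agent.Helper98.EQ.Nuf

/-!
# Project ER (MP_5b9a11_al): homocyclic sections; definitions

Paper proof: MP_5b9a11_al_ER.md in the store.  `T : Dat p`, `Chr T R`, `Hs T A`, `ee C A`, `dm`, `rs` are those
of project EP (`Pool/Agent/Helper47/EP/Defs.lean`), `SA`, `mono`, `Coc`, `Iv`, `tn`, `pm`, `nz`, `AS`, `cc`
those of project EQ (`Pool/Agent/Helper98/EQ/Defs.lean`).
-/

set_option autoImplicit false
set_option linter.unusedSectionVars false

namespace Pool.Agent.Helper47.ER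

open MonoidAlgebra IsLocalRing Pool.Agent.Helper17.PF
open Pool.Agent.Helper98.EQ (SA Iv Imp Coc mono tn pm nz AS cc)
open Pool.Agent.Helper47.EP (Dat Chr Hs Om ee ev kap dm rs)

/-- the form may be scaled by additive maps which commute with the `t j` -/
def Sc {p : ℕ} (T : Dat p) : Prop := ∀ a : ZMod T.l, a ≠ 0 → ∃ κ : T.K →+ T.K,
  (∀ x y, T.w (κ x) (κ y) = a * T.w x y) ∧ ∀ j x, κ (T.t j x) = T.t j (κ x)

/-- the number of the orbits of `g` on `A` on which the sum of `j` is `0` -/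
noncomputable def zo {A : Type} [Fintype A] {p : ℕ} (g : Equiv.Perm A) (j : A → ZMod p) : ℕ := by
  classical
  exact Nat.card {o : Quotient (Equiv.Perm.SameCycle.setoid g) //
    ∑ a ∈ Finset.univ.filter (fun a => (Quotient.mk (Equiv.Perm.SameCycle.setoid g) a) = o), j a = 0}

/-- the number of the vectors fixed by all elements of `W` -/
noncomputable def fx {p : ℕ} {T : Dat p} {A : Type} [Fintype A] [DecidableEq A] {H : Type} [Group H]
    (M : SA T A H) (W : Subgroup H) : ℕ := Nat.card {v : A → T.K // ∀ h ∈ W, M.m h v = v}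

/-- the number of the elements `x` of `W` with `x ^ p = 1` -/
noncomputable def tp (p : ℕ) {H : Type} [Group H] (W : Subgroup H) : ℕ :=
  Nat.card {x : H // x ∈ W ∧ x ^ p = 1}

/-- the parity condition: `dim V^W + log_p #{x ∈ W | x^p = 1}` has the same parity for all `W ≥ U` -/
def Par {p : ℕ} {T : Dat p} {A : Type} [Fintype A] [DecidableEq A] {H : Type} [Group H]
    (M : SA T A H) (U : Subgroup H) (m₀ : ℕ) : Prop :=
  ∀ W : Subgroup H, U ≤ W → ∀ a ρ : ℕ, fx M W = T.l ^ (2 * a) → tp p W = p ^ ρ →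
    Even (m₀ + a + ρ)

/-- `U` is a subgroup of the abelian group `H` with a good chain of length `r` above it -/
def Gd (p k : ℕ) (H : Type) [CommGroup H] : ℕ → Subgroup H → Prop
  | 0, _ => True
  | r + 1, U => (∀ u, u ∉ U → tp p (U ⊔ Subgroup.zpowers u) = p * tp p U) ∧
      ∃ S : Finset H, (∀ u ∈ S, u ∉ U ∧ Gd p k H r (U ⊔ Subgroup.zpowers u)) ∧
        (p ^ (k * (r + 1)) - p ^ ((k - 1) * (r + 1))) * Nat.card U ≤ S.card

/-- `∏_{1 ≤ j ≤ r} (p^(k j) - p^((k-1) j))` -/
def bet (p k r : ℕ) : ℕ :=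
  ∏ j ∈ Finset.range r, (p ^ (k * (j + 1)) - p ^ ((k - 1) * (j + 1)))

/-- the action of `D` through a homomorphism `D → Q` -/
def pull {p : ℕ} {T : Dat p} {A : Type} [Fintype A] [DecidableEq A] {D Q : Type} [Group D]
    [Group Q] (M : SA T A Q) (φ : D →* Q) : SA T A D where
  m d v := M.m (φ d) v
  one v := by rw [map_one, M.one]
  mul d d' v := by rw [map_mul, M.mul]
  add d v w := M.add _ v w
  om d v w := M.om _ v w

end Pool.Agent.Helper47.ER
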