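import Pool.Agent.Helper47.ER.Goals

/-!
# Packet ER-FIN2: positivity (adapted from `Pool/Agent/Helper23/EQ/FIN.lean`)
-/

set_option autoImplicit false

namespace Pool.Agent.Helper47.ER.FIN2

open Pool.Agent.Helper47.ER

/-- The inequality over a field. -/
theorem field_case {k X D : Type} [Field k] [CharZero k] [Fintype X]
    [DecidableEq X] [Group D] [Fintype D] (P : D →* Matrix X X k) (J : Matrix X X k)
    (hJ : J * J = J) (hc : ∀ d, P d * J = J * P d) (q : ℕ) (f : D → ℤ)
    (h : ∀ u : D, (q : k) * (P u * J).trace = (f u : k)) : 0 ≤ ∑ u, f u := by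
  classical
  have hc0 : (Fintype.card D : k) ≠ 0 := by exact_mod_cast Fintype.card_ne_zero
  set S : Matrix X X k := ∑ u : D, P u with hS
  have hSP : ∀ d, P d * S = S := by
    intro d
    rw [hS, Finset.mul_sum]
    simp only [← map_mul]
    exact Fintype.sum_equiv (Equiv.mulLeft d) _ _ fun u => rfl
  have hSS : S * S = (Fintype.card D : k) • S := by
    conv_lhs => rw [hS, Finset.sum_mul]
    rw [Finset.sum_congr rfl fun d _ => hSP d, Finset.sum_const, Finset.card_univ]
    exact (Nat.cast_smul_eq_nsmul k _ _).symm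
  have hSJ : S * J = J * S := by
    rw [hS, Finset.sum_mul, Finset.mul_sum]
    exact Finset.sum_congr rfl fun d _ => hc d
  set E : Matrix X X k := (Fintype.card D : k)⁻¹ • (S * J) with hE
  have hEE : E * E = E := by
    have h1 : S * J * (S * J) = (Fintype.card D : k) • (S * J) := by
      rw [hSJ, mul_assoc, ← mul_assoc S J S, hSJ, mul_assoc J S S, hSS, ← mul_assoc, hJ,
        Matrix.mul_smul]
    rw [hE, Matrix.smul_mul, Matrix.mul_smul, h1, smul_smul, smul_smul, mul_assoc,
      inv_mul_cancel₀ hc0, mul_one]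
  obtain ⟨r, hr⟩ : ∃ r : ℕ, E.trace = (r : k) := by
    have hid : IsIdempotentElem (Matrix.toLin' E) := by
      change Matrix.toLin' E * Matrix.toLin' E = Matrix.toLin' E
      rw [Module.End.mul_eq_comp, ← Matrix.toLin'_mul, hEE]
    have h1 := (LinearMap.IsIdempotentElem.isProj_range _ hid).trace
    rw [Matrix.trace_toLin'_eq] at h1
    exact ⟨_, h1⟩
  have hsum : ((∑ u, f u : ℤ) : k) = (q : k) * ((Fintype.card D : k) * r) := by
    have h1 : (S * J).trace = (Fintype.card D : k) * r := by
      rw [← hr, hE, Matrix.trace_smul, smul_eq_mul, ← mul_assoc, mul_inv_cancel₀ hc0, one_mul]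
    rw [← h1, hS, Finset.sum_mul, Matrix.trace_sum, Finset.mul_sum, Int.cast_sum]
    exact Finset.sum_congr rfl fun u _ => (h u).symm
  have hsum' : ∑ u, f u = (q : ℤ) * ((Fintype.card D : ℤ) * r) := by
    exact_mod_cast hsum
  rw [hsum']
  positivity

theorem map_tr {R k X : Type} [CommRing R] [CommRing k] [Fintype X] [DecidableEq X] (f : R →+* k)
    (M : Matrix X X R) : (f.mapMatrix M).trace = f M.trace := by
  simp [Matrix.trace, map_sum]

theorem t : S_FIN2 := by
  intro R X D _ _ _ _ _ _ _ P J hJ hc q f h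
  set k := FractionRing R with hk
  let φ : R →+* k := algebraMap R k
  have hφ : Function.Injective φ := IsFractionRing.injective R k
  have hch : CharZero k := by
    refine ⟨fun a b hab => ?_⟩
    have h1 : φ (a : R) = φ (b : R) := by rw [map_natCast, map_natCast]; exact hab
    exact Nat.cast_injective (hφ h1)
  have hmul : ∀ M N : Matrix X X R, (φ.mapMatrix (M * N)) = φ.mapMatrix M * φ.mapMatrix N :=
    fun M N => map_mul _ _ _
  let P' : D →* Matrix X X k :=
    { toFun := fun d => φ.mapMatrix (P d)
      map_one' := by rw [map_one, map_one]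
      map_mul' := fun d d' => by rw [map_mul, hmul] }
  refine field_case P' (φ.mapMatrix J) (by rw [← hmul, hJ]) ?_ q f ?_
  · intro d
    show φ.mapMatrix (P d) * φ.mapMatrix J = φ.mapMatrix J * φ.mapMatrix (P d)
    rw [← hmul, hc, hmul]
  · intro u
    show (q : k) * (φ.mapMatrix (P u) * φ.mapMatrix J).trace = _
    rw [← hmul]
    rw [map_tr, ← map_natCast φ, ← map_mul, h, map_intCast]

end Pool.Agent.Helper47.ER.FIN2
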