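import Pool.Agent.Helper47.ER.Goals

/-!
# Packet ER-HC: the group `(Z/p^k)^r`
-/

set_option autoImplicit false

namespace Pool.Agent.Helper47.ER.HC

open Pool.Agent.Helper47.ER

variable {p : ℕ}

theorem card_rk {G G' : Type} [Group G] [Group G'] [Finite G] (f : G →* G') :
    Nat.card G = Nat.card f.range * Nat.card f.ker := by
  rw [Subgroup.card_eq_card_quotient_mul_card_subgroup f.ker,
    Nat.card_congr (QuotientGroup.quotientKerEquivRange f).toEquiv]

/-- the `p`-torsion of `U ⟨u⟩` -/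
theorem tp_step [Fact p.Prime] {H M : Type} [CommGroup H] [Finite H] [CommGroup M] [Finite M]
    (k : ℕ) (hH : ∀ x : H, x ^ p ^ k = 1) (π : H →* M)
    (hM : ∀ s ≤ k, ∀ h : H, π h ^ p ^ s = 1 → ∃ z : H, π h = π z ^ p ^ (k - s)) (u : H)
    (hu : u ∉ π.ker) : tp p (π.ker ⊔ Subgroup.zpowers u) = p * tp p π.ker := by
  classical
  have hp := (Fact.out : p.Prime)
  set W := π.ker ⊔ Subgroup.zpowers u with hW
  have hUW : π.ker ≤ W := le_sup_left
  have huW : u ∈ W := Subgroup.mem_sup_right (Subgroup.mem_zpowers u)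
  -- an element of order `p` outside `U`
  obtain ⟨x, hx1, hx2, hx3⟩ : ∃ x ∈ W, x ^ p = 1 ∧ π x ≠ 1 := by
    have hex : ∃ s, u ^ p ^ s ∈ π.ker := ⟨k, by rw [hH]; exact π.ker.one_mem⟩
    have hs1 := Nat.find_spec hex
    have hs2 : Nat.find hex ≤ k := Nat.find_min' hex (by rw [hH]; exact π.ker.one_mem)
    have hs3 : Nat.find hex ≠ 0 := by
      intro h
      rw [h, pow_zero, pow_one] at hs1
      exact hu hs1
    obtain ⟨t, ht⟩ := Nat.exists_eq_succ_of_ne_zero hs3
    have hmin : u ^ p ^ t ∉ π.ker := Nat.find_min hex (by omega)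
    rw [ht] at hs1 hs2
    rw [MonoidHom.mem_ker, map_pow] at hs1
    obtain ⟨z, hz⟩ := hM (t + 1) hs2 u hs1
    set w := z ^ p ^ (k - (t + 1)) with hw
    have hπw : π w = π u := by rw [hw, map_pow, hz]
    refine ⟨w ^ p ^ t, ?_, ?_, ?_⟩
    · refine W.pow_mem ?_ _
      have h1 : w = u * (u⁻¹ * w) := by group
      rw [h1]
      refine W.mul_mem huW (hUW ?_)
      rw [MonoidHom.mem_ker, map_mul, map_inv, hπw, inv_mul_cancel]
    · rw [← pow_mul, ← pow_succ, hw, ← pow_mul, ← pow_add, Nat.sub_add_cancel hs2, hH]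
    · rw [map_pow, hπw, ← map_pow]
      exact hmin
  set Wp : Subgroup H := W ⊓ (powMonoidHom p : H →* H).ker with hWp
  have htW : tp p W = Nat.card Wp := rfl
  set f : Wp →* M := π.comp Wp.subtype with hf
  have hker : Nat.card f.ker = tp p π.ker := by
    refine Nat.card_congr
      { toFun := fun y => ⟨y.1.1, y.2, y.1.2.2⟩
        invFun := fun y => ⟨⟨y.1, hUW y.2.1, y.2.2⟩, y.2.1⟩
        left_inv := fun _ => rfl
        right_inv := fun _ => rfl }
  have hr1 : ∀ y ∈ f.range, y ∈ Subgroup.zpowers (π u) := by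
    rintro _ ⟨w, rfl⟩
    have h1 : W ≤ (Subgroup.zpowers (π u)).comap π := by
      refine sup_le ?_ ?_
      · intro a ha
        rw [Subgroup.mem_comap, MonoidHom.mem_ker.1 ha]
        exact Subgroup.one_mem _
      · rw [Subgroup.zpowers_le, Subgroup.mem_comap]
        exact Subgroup.mem_zpowers _
    exact h1 w.2.1
  have hr2 : ∀ y ∈ f.range, y ^ p = 1 := by
    rintro _ ⟨w, rfl⟩
    rw [← map_pow]
    have : w ^ p = 1 := Subtype.ext w.2.2
    rw [this, map_one]
  have hle : Nat.card f.range ≤ p := by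
    have := Fintype.ofFinite (Subgroup.zpowers (π u))
    have h1 := IsCyclic.card_pow_eq_one_le (α := Subgroup.zpowers (π u)) hp.pos
    refine le_trans ?_ h1
    rw [← Fintype.card_subtype, ← Nat.card_eq_fintype_card]
    refine Nat.card_le_card_of_injective
      (fun y : f.range => (⟨⟨y.1, hr1 y.1 y.2⟩, Subtype.ext (hr2 y.1 y.2)⟩ :
        {a : Subgroup.zpowers (π u) // a ^ p = 1})) ?_
    intro y y' h
    exact Subtype.ext (congrArg (fun a => a.1.1) h)
  have hdvd : p ∣ Nat.card f.range := by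
    have h1 : orderOf (⟨π x, ⟨⟨x, hx1, hx2⟩, rfl⟩⟩ : f.range) = p := by
      refine orderOf_eq_prime ?_ ?_
      · exact Subtype.ext (hr2 _ ⟨⟨x, hx1, hx2⟩, rfl⟩)
      · intro h
        exact hx3 (congrArg Subtype.val h)
    rw [← h1]
    exact orderOf_dvd_natCard _
  have heq : Nat.card f.range = p :=
    le_antisymm hle (Nat.le_of_dvd Nat.card_pos hdvd)
  rw [htW, card_rk f, heq, hker]

/-- divisibility in `ZMod (p ^ k)` -/
theorem div_zmod [Fact p.Prime] (k s : ℕ) (hs : s ≤ k) (a : ZMod (p ^ k))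
    (ha : (p ^ s : ℕ) • a = 0) : ∃ b : ZMod (p ^ k), a = (p ^ (k - s) : ℕ) • b := by
  have hp := (Fact.out : p.Prime)
  have : NeZero (p ^ k) := ⟨pow_ne_zero _ hp.ne_zero⟩
  have h1 : ((p ^ s * a.val : ℕ) : ZMod (p ^ k)) = 0 := by
    rw [← ha]
    push_cast
    rw [ZMod.natCast_zmod_val, nsmul_eq_mul]
    push_cast
    rfl
  rw [ZMod.natCast_eq_zero_iff] at h1
  have h2 : p ^ (k - s) ∣ a.val := by
    have h3 : p ^ k = p ^ s * p ^ (k - s) := by
      rw [← pow_add]
      congr 1
      omega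
    exact Nat.dvd_of_mul_dvd_mul_left (pow_pos hp.pos _) ((dvd_of_eq h3.symm).trans h1)
  obtain ⟨c, hc⟩ := h2
  refine ⟨(c : ZMod (p ^ k)), ?_⟩
  rw [← ZMod.natCast_zmod_val a, hc, nsmul_eq_mul]
  push_cast
  rfl

/-- the group `(Z/p^k)^m` -/
abbrev Mm (p k m : ℕ) : Type := Multiplicative (Fin m → ZMod (p ^ k))

/-- good elements: some coordinate is a unit -/
def good (p k m : ℕ) (w : Mm p k m) : Prop := ∃ i, IsUnit (Multiplicative.toAdd w i)

/-- a surjection with kernel `⟨w⟩` -/
theorem kill [Fact p.Prime] (k m : ℕ) (w : Mm p k (m + 1)) (hw : good p k (m + 1) w) :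
    ∃ ρ : Mm p k (m + 1) →* Mm p k m, Function.Surjective ρ ∧ ρ.ker = Subgroup.zpowers w := by
  have hp := (Fact.out : p.Prime)
  have : NeZero (p ^ k) := ⟨pow_ne_zero _ hp.ne_zero⟩
  obtain ⟨i, hi⟩ := hw
  obtain ⟨e, he⟩ := hi
  set v := Multiplicative.toAdd w with hv
  let ρ : Mm p k (m + 1) →* Mm p k m := AddMonoidHom.toMultiplicative
    { toFun := fun x j => x (i.succAbove j) - x i * ↑e⁻¹ * v (i.succAbove j)
      map_zero' := by
        funext j
        simp
      map_add' := fun x y => by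
        funext j
        simp only [Pi.add_apply]
        ring }
  have hρ : ∀ (x : Mm p k (m + 1)) (j : Fin m), Multiplicative.toAdd (ρ x) j =
      Multiplicative.toAdd x (i.succAbove j) -
        Multiplicative.toAdd x i * ↑e⁻¹ * v (i.succAbove j) := fun _ _ => rfl
  refine ⟨ρ, ?_, ?_⟩
  · intro y
    refine ⟨Multiplicative.ofAdd (i.insertNth 0 (Multiplicative.toAdd y)), ?_⟩
    apply Multiplicative.toAdd.injective
    funext j
    rw [hρ]
    simp
  · ext x
    rw [MonoidHom.mem_ker, Subgroup.mem_zpowers_iff]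
    constructor
    · intro h
      have h1 : ∀ j, Multiplicative.toAdd x (i.succAbove j) =
          Multiplicative.toAdd x i * ↑e⁻¹ * v (i.succAbove j) := by
        intro j
        have h2 := hρ x j
        rw [h] at h2
        exact (sub_eq_zero.1 h2.symm)
      refine ⟨((Multiplicative.toAdd x i * ↑e⁻¹).val : ℤ), ?_⟩
      apply Multiplicative.toAdd.injective
      rw [toAdd_zpow, ← hv]
      funext j
      rw [Pi.smul_apply, zsmul_eq_mul]
      push_cast
      rw [ZMod.natCast_zmod_val]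
      rcases Fin.eq_self_or_eq_succAbove i j with h2 | ⟨j', h2⟩
      · rw [h2, ← he, mul_assoc, Units.inv_mul, mul_one]
      · rw [h2, h1]
    · rintro ⟨n, rfl⟩
      apply Multiplicative.toAdd.injective
      funext j
      rw [hρ, toAdd_zpow, ← hv, Pi.smul_apply, Pi.smul_apply, ← he, zsmul_eq_mul, zsmul_eq_mul,
        mul_assoc ((n : ZMod (p ^ k))), Units.mul_inv, mul_one, sub_self]
      rfl

/-- the number of the good elements -/
theorem card_good [Fact p.Prime] (k m : ℕ) (hk : 1 ≤ k) :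
    Nat.card {w : Mm p k m // good p k m w} = p ^ (k * m) - p ^ ((k - 1) * m) := by
  classical
  have hp := (Fact.out : p.Prime)
  have : NeZero (p ^ k) := ⟨pow_ne_zero _ hp.ne_zero⟩
  have h1 : Nat.card (Mm p k m) = p ^ (k * m) := by
    rw [Nat.card_congr Multiplicative.toAdd, Nat.card_fun, Nat.card_zmod,
      Nat.card_eq_fintype_card, Fintype.card_fin, ← pow_mul]
  have hu : Nat.card {a : ZMod (p ^ k) // ¬ IsUnit a} = p ^ (k - 1) := by
    have h2 : Nat.card {a : ZMod (p ^ k) // IsUnit a} = p ^ (k - 1) * (p - 1) := by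
      have h3 : Nat.card (ZMod (p ^ k))ˣ = p ^ (k - 1) * (p - 1) := by
        rw [Nat.card_eq_fintype_card, ZMod.card_units_eq_totient, Nat.totient_prime_pow hp hk]
      rw [← h3]
      exact Nat.card_congr
        { toFun := fun a => a.2.unit
          invFun := fun u => ⟨u, u.isUnit⟩
          left_inv := fun a => Subtype.ext a.2.unit_spec
          right_inv := fun u => Units.ext u.isUnit.unit_spec }
    have h4 : Nat.card (ZMod (p ^ k)) = Nat.card {a : ZMod (p ^ k) // IsUnit a} +
        Nat.card {a : ZMod (p ^ k) // ¬ IsUnit a} := by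
      rw [← Nat.card_sum]
      exact Nat.card_congr (Equiv.sumCompl _).symm
    rw [Nat.card_zmod, h2] at h4
    obtain ⟨k, rfl⟩ : ∃ k', k = k' + 1 := ⟨k - 1, by omega⟩
    rw [Nat.add_sub_cancel] at h4 ⊢
    obtain ⟨q, hq⟩ : ∃ q, p = q + 1 := ⟨p - 1, by have := hp.pos; omega⟩
    have h5 : p ^ (k + 1) = p ^ k * (p - 1) + p ^ k := by
      have h6 : p - 1 = q := by omega
      rw [h6, pow_succ]
      nth_rewrite 2 [hq]
      ring
    omega
  have hb : Nat.card {w : Mm p k m // ¬ good p k m w} = p ^ ((k - 1) * m) := by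
    have h2 : Nat.card {w : Mm p k m // ¬ good p k m w} =
        Nat.card (Fin m → {a : ZMod (p ^ k) // ¬ IsUnit a}) := by
      refine Nat.card_congr
        { toFun := fun w i => ⟨Multiplicative.toAdd w.1 i, fun h => w.2 ⟨i, h⟩⟩
          invFun := fun f => ⟨Multiplicative.ofAdd fun i => (f i).1, fun ⟨i, h⟩ => (f i).2 h⟩
          left_inv := fun w => rfl
          right_inv := fun f => rfl }
    rw [h2, Nat.card_fun, hu, Nat.card_eq_fintype_card, Fintype.card_fin, ← pow_mul]
  have h5 : Nat.card (Mm p k m) = Nat.card {w : Mm p k m // good p k m w} +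
      Nat.card {w : Mm p k m // ¬ good p k m w} := by
    rw [← Nat.card_sum]
    exact Nat.card_congr (Equiv.sumCompl _).symm
  rw [h1, hb] at h5
  omega

theorem gd [Fact p.Prime] (k : ℕ) (hk : 1 ≤ k) (H : Type) [CommGroup H] [Finite H]
    (hH : ∀ x : H, x ^ p ^ k = 1) : ∀ (m : ℕ) (U : Subgroup H) (π : H →* Mm p k m),
    Function.Surjective π → π.ker = U → Gd p k H m U := by
  classical
  have hp := (Fact.out : p.Prime)
  have hNZ : NeZero (p ^ k) := ⟨pow_ne_zero _ hp.ne_zero⟩
  have := Fintype.ofFinite H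
  intro m
  induction m with
  | zero => exact fun _ _ _ _ => trivial
  | succ m ih =>
    intro U π hπ hU
    subst hU
    refine ⟨?_, Finset.univ.filter (fun u => good p k (m + 1) (π u)), ?_, ?_⟩
    · intro u hu
      refine tp_step k hH π ?_ u hu
      intro s hs h hh
      have h1 : ∀ i, ∃ b : ZMod (p ^ k), Multiplicative.toAdd (π h) i = (p ^ (k - s) : ℕ) • b := by
        intro i
        refine div_zmod k s hs _ ?_
        have h2 := congrArg Multiplicative.toAdd hh
        rw [toAdd_pow] at h2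
        exact congrFun h2 i
      choose b hb using h1
      obtain ⟨z, hz⟩ := hπ (Multiplicative.ofAdd b)
      refine ⟨z, ?_⟩
      apply Multiplicative.toAdd.injective
      rw [hz, toAdd_pow]
      funext i
      exact hb i
    · intro u hu
      have hg := (Finset.mem_filter.1 hu).2
      refine ⟨?_, ?_⟩
      · intro h
        rw [MonoidHom.mem_ker] at h
        obtain ⟨i, hi⟩ := hg
        rw [h] at hi
        have h1 : (0 : ZMod (p ^ k)) = Multiplicative.toAdd (1 : Mm p k (m + 1)) i := rfl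
        rw [← h1, isUnit_zero_iff] at hi
        have h2 : Fact (1 < p ^ k) := ⟨Nat.one_lt_pow (by omega) hp.one_lt⟩
        exact zero_ne_one hi
      · obtain ⟨ρ, hρ1, hρ2⟩ := kill k m (π u) hg
        refine ih _ (ρ.comp π) (hρ1.comp hπ) ?_
        ext x
        rw [MonoidHom.mem_ker, MonoidHom.comp_apply, ← MonoidHom.mem_ker, hρ2,
          Subgroup.mem_zpowers_iff, Subgroup.mem_sup]
        constructor
        · rintro ⟨n, hn⟩
          refine ⟨x * (u ^ n)⁻¹, ?_, u ^ n, Subgroup.zpow_mem_zpowers u n, by group⟩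
          rw [MonoidHom.mem_ker, map_mul, map_inv, map_zpow, hn, mul_inv_cancel]
        · rintro ⟨y, hy, z, hz, rfl⟩
          obtain ⟨n, rfl⟩ := Subgroup.mem_zpowers_iff.1 hz
          refine ⟨n, ?_⟩
          rw [map_mul, MonoidHom.mem_ker.1 hy, one_mul, map_zpow]
    · rw [← card_good k (m + 1) hk, ← Fintype.card_subtype, ← Nat.card_eq_fintype_card,
        ← Nat.card_prod]
      choose sec hsec using hπ
      refine Nat.card_le_card_of_injective
        (fun x : {w : Mm p k (m + 1) // good p k (m + 1) w} × π.ker =>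
          (⟨sec x.1.1 * x.2.1, by
            rw [map_mul, hsec, MonoidHom.mem_ker.1 x.2.2, mul_one]
            exact x.1.2⟩ : {u : H // good p k (m + 1) (π u)})) ?_
      rintro ⟨⟨w, hw⟩, ⟨y, hy⟩⟩ ⟨⟨w', hw'⟩, ⟨y', hy'⟩⟩ h
      have h1 : sec w * y = sec w' * y' := congrArg Subtype.val h
      have h2 : w = w' := by
        have h3 := congrArg π h1
        rw [map_mul, map_mul, hsec, hsec, MonoidHom.mem_ker.1 hy, MonoidHom.mem_ker.1 hy',
          mul_one, mul_one] at h3
        exact h3
      subst h2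
      have h3 : y = y' := mul_left_cancel h1
      subst h3
      rfl

theorem t : S_HC := by
  intro p _ k r hk
  have hp := (Fact.out : p.Prime)
  have : NeZero (p ^ k) := ⟨pow_ne_zero _ hp.ne_zero⟩
  refine gd k hk _ ?_ r ⊥ (MonoidHom.id _) Function.surjective_id ?_
  · intro x
    apply Multiplicative.toAdd.injective
    rw [toAdd_pow]
    funext i
    show (p ^ k) • (Multiplicative.toAdd x i) = 0
    rw [nsmul_eq_mul, ZMod.natCast_self, zero_mul]
  · ext x
    rw [MonoidHom.mem_ker, Subgroup.mem_bot]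
    rfl

end Pool.Agent.Helper47.ER.HC
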