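import Pool.Agent.Helper47.ER.Size
import Pool.Agent.Helper98.ER.FLD2
import Pool.Agent.Helper47.ER.HC
import Pool.Agent.Helper13.ER.PAR2
import Pool.Agent.Helper26.ER.RED
import Pool.Agent.Helper53.ER.TRA
import Pool.Agent.Helper15.ER.BRH2
import Pool.Agent.Helper39.ER.CYC2
import Pool.Agent.Helper40.ER.ORP
import Pool.Agent.Helper24.ER.FXC
import Pool.Agent.Helper57.ER.TRZ2
import Pool.Agent.Helper14.ER.DMU
import Pool.Agent.Helper47.ER.FIN2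
import Pool.Agent.Helper15.EQ.SET
import Pool.Agent.Helper37.EQ.SCH
import Pool.Agent.Helper52.EQ.ONE
import Pool.Agent.Helper14.EQ.PHI
import Pool.Agent.Helper91.EQ.IMP
import Pool.Agent.Helper13.EQ.TEN
import Pool.Agent.Helper39.EQ.TRU
import Pool.Agent.Helper41.EQ.TRE
import Pool.Agent.Helper44.EQ.LFT
import Pool.Agent.Helper48.EQ.ORB
import Pool.Agent.Helper66.EQ.PATH
import Pool.Agent.Helper42.EQ.IDR
import Pool.Agent.Helper26.EQ.TH
import Pool.Agent.Helper26.EQ.NIL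
import Pool.Agent.Helper43.EQ.BLK
import Pool.Agent.Helper60.EQ.CEN
import Pool.Agent.Helper51.EQ.EXI
import Pool.Agent.Helper57.EQ.SRC
import Pool.Agent.Helper47.EQ.BLOCKS

/-!
# Project ER: the theorem
-/

set_option autoImplicit false

namespace Pool.Agent.Helper47.ER

open Pool.Agent

theorem pBLOCKS : Helper98.EQ.S_BLOCKS :=
  Helper47.EQ.BLOCKS.t Helper26.EQ.TH.t Helper26.EQ.NIL.t
    (Helper43.EQ.BLK.t Helper26.EQ.TH.t Helper26.EQ.NIL.t)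
    (Helper60.EQ.CEN.t (Helper43.EQ.BLK.t Helper26.EQ.TH.t Helper26.EQ.NIL.t)) Helper51.EQ.EXI.t
    (Helper57.EQ.SRC.t Helper26.EQ.TH.t Helper26.EQ.NIL.t) Helper44.EQ.LFT.t

theorem pTRU : Helper98.EQ.S_TRU := Helper39.EQ.TRU.t Helper41.EQ.TRE.t

theorem pPHI : Helper98.EQ.S_PHI := Helper14.EQ.PHI.t Helper13.EQ.TEN.t

theorem pIMP : Helper98.EQ.S_IMP := Helper91.EQ.IMP.t Helper13.EQ.TEN.t

theorem pLVL : S_LVL :=
  lvl Helper37.EQ.SCH.t Helper52.EQ.ONE.t pPHI pIMP pTRU Helper44.EQ.LFT.t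
    (Helper39.ER.CYC2.t Helper13.EQ.TEN.t) Helper40.ER.ORP.t Helper24.ER.FXC.t
    (Helper57.ER.TRZ2.t Helper48.EQ.ORB.t (Helper66.EQ.PATH.t Helper48.EQ.ORB.t)
      Helper42.EQ.IDR.t)
    (Helper14.ER.DMU.t Helper53.ER.TRA.t) FIN2.t

theorem pIND : S_IND := ind Helper26.ER.RED.t Helper53.ER.TRA.t Helper15.ER.BRH2.t pLVL

/-- the theorem -/
theorem th_main : S_MAIN :=
  main Helper98.ER.FLD2.t HC.t Helper13.ER.PAR2.t pIND Helper15.EQ.SET.t
    Helper37.EQ.SCH.t Helper52.EQ.ONE.t pPHI pIMP pBLOCKS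

end Pool.Agent.Helper47.ER
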