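import Pool.Agent.Helper47.ER.Defs

/-!
# Project ER (MP_5b9a11_al): statements of the packets, with proofs

THEOREM.  `p` odd, `D` a finite `p`-group, `(Z/p^k)^r ≤ Q`, `Q` a quotient of `D`: some multiplicity
`m(Q_δ, P_γ)` of the pointed fusion system of a block with a defect group isomorphic to `D` is at least
`∏_{j ≤ r} (p^(k j) - p^((k-1) j))`.  Paper proof: MP_5b9a11_al_ER.md in the store.

Available as theorems: those listed in the header of `Pool/Agent/Helper98/EQ/Goals.lean` (`pHB`, `pRHO`, `pCHR`,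
`pSIM`, ..).  Open the namespaces with lists of names, as here.
-/

set_option autoImplicit false

namespace Pool.Agent.Helper47.ER

open MonoidAlgebra IsLocalRing Pool.Agent.Helper17.PF
open Pool.Agent.Helper98.EQ (SA Iv Imp Coc mono tn pm nz AS cc)
open Pool.Agent.Helper47.EP (Dat Chr Hs Om ee ev kap dm rs pHB pSIM)

/-- PACKET FLD2 (the symplectic space with scalings).
Proof.  Adapt `Pool/Agent/Helper2/EP/FLD.lean` (same `T`: `K` a field with `l²` elements, `w x y = Tr(δ x y^l)`, `t j x = ζ^j x`).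
For `a ≠ 0` in `F_l` there is `m ∈ Kˣ` with `m^(l+1) = a` (the norm of finite fields is onto: `Kˣ` is cyclic of order `l² - 1`,
`m ↦ m^(l+1)` has a kernel of order `l + 1`, so an image of order `l - 1`, contained in `F_lˣ`).  `κ x = m x`:
`w (m x) (m y) = Tr(δ m^(l+1) x y^l) = a w x y`, and `κ` commutes with the multiplication by `ζ^j`. -/
def S_FLD2 : Prop := ∀ p : ℕ, p.Prime → p ≠ 2 → ∃ T : Dat p, Sc T

/-- PACKET RED (the fixed points of a central element are again a Heisenberg group with a monomial action).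
Proof.  Orbits = orbits of `u` on `A` (`Equiv.Perm.SameCycle.setoid (MulAction.toPerm u)`, or orbits of `Subgroup.zpowers u`).  By `hc`:
`c(u^i, a) = ∑_{t<i} c(u, u^(-t) a)`; `J_o := ∑_{a ∈ o} c(u,a) = c(u^|o|, a)` for every `a ∈ o`.  `A'` := the orbits with
`J_o = 0`; choose representatives `s(o) ∈ o`.  `v` is fixed by `u` iff `v_b = t(c(u^i,b)) v_(u^(-i) b)` for all `i`, `b`; so `v = 0` on the
orbits with `J_o ≠ 0` (`inj`), and on the others `v` is given by `v_(s o)`; `c(u^i, b)` depends only on `b` and `u^(-i)b` (as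
`J_o = 0`).  For `b ∈ o ∈ A'` let `q(b) = c(u^i, b)` with `u^(-i) b = s(o)`.  `H` acts on `A'` (`h u = u h`; `J_(ho) = J_o`: by `hc`
`c(h u^m h⁻¹, h a) = c(h, h a) + c(u^m, a) + c(h⁻¹, u^(-m) a)`, for `m = |o|` it is `c(u^m,a)`, as `c(h,ha) + c(h⁻¹,a) = c(1,..) = 0`).
`|o|` is a power of `p` (`u` has `p`-power order), so `≠ 0` in `Z/l`; `κ_o := κ` from `Sc T` for `a = |o|⁻¹` (choose it as a function
of `|o|`, so that `κ_(ho) = κ_o`).  `Ψ(v', z) = (v, z)`, `v_b = t(q(b)) (κ_o v'_o)` for `b ∈ o ∈ A'`, `v_b = 0` otherwise: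
`Om v w = ∑_o |o| w(κ_o v'_o, κ_o w'_o) = Om v' w'`.  `κ_o` is injective (`w(κx,κy) = a w(x,y)`, `nondeg`), so bijective (`K` finite), which
gives injectivity and the description of the range.  `c'(h, o) := c(h, s(o)) + q(h⁻¹ s(o))`: then `(h v)_(s o) = t(c'(h,o)) κ_o v'_(h⁻¹o)`,
which is the equivariance (both sides are fixed by `u`, compare them at the `s(o)`); the cocycle condition: the same computation, or
directly from `hc` and the fact that `q` is given by `c` on `⟨u⟩`. -/
def S_RED : Prop := ∀ (p : ℕ) [Fact p.Prime] (T : Dat p), Sc T → ∀ (A : Type) [Fintype A]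
  [DecidableEq A] (H : Type) [Group H] [Finite H], IsPGroup p H → ∀ [MulAction H A]
  (c : H → A → ZMod p) (hc : Coc c) (u : H), (∀ h, h * u = u * h) →
  ∃ (A' : Type) (_ : Fintype A') (_ : DecidableEq A') (_ : MulAction H A') (c' : H → A' → ZMod p)
    (hc' : Coc c') (Ψ : Hs T A' →* Hs T A), Function.Injective Ψ ∧ (∀ g, (Ψ g).z = g.z) ∧
    (∀ z : ZMod T.l, Ψ ⟨0, z⟩ = ⟨0, z⟩) ∧ (∀ g, (mono T c hc).s u g = g ↔ ∃ g', Ψ g' = g) ∧
    ∀ (h : H) (g : Hs T A'), Ψ ((mono T c' hc').s h g) = (mono T c hc).s h (Ψ g)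

/-- PACKET TRA (transport of the dimension to a subgroup).
Proof.  `x'.coeff g = x.coeff (Ψ g)`; `mapDomain` of it is `x` (injectivity, support of `x`).  `FL` is as a left module over `FL'` (via
`Ψ`) the direct sum of the `FL' g` over representatives `g` of the right cosets `Ψ(L') g`, each isomorphic to `FL'`; left
multiplication with `x` respects the decomposition, so `dim (x FL) = [L : L'] dim (x' FL')`.  (With bases: the matrix of the left
multiplication with `x` in the basis `L` is block diagonal with `[L : L']` equal blocks, the rank is additive; or: use an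
equivalence `L ≃ L' × (cosets)` and `LinearEquiv` to `(cosets) → FL'`, the range of a product map is the product of the ranges,
`Module.finrank_pi`.) -/
def S_TRA : Prop := ∀ (F : Type) [Field F] (L' L : Type) [Group L'] [Group L] [Finite L'] [Finite L]
  (Ψ : L' →* L), Function.Injective Ψ → ∀ x : MonoidAlgebra F L,
  (∀ g, x.coeff g ≠ 0 → ∃ g', Ψ g' = g) →
  ∃ x' : MonoidAlgebra F L', (∀ g, x'.coeff g = x.coeff (Ψ g)) ∧
    MonoidAlgebra.mapDomainRingHom F Ψ x' = x ∧ dm x * Nat.card L' = dm x' * Nat.card L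

/-- PACKET BRH2 (the Brauer homomorphism).
Proof.  As `Pool/Agent/Helper4/EP/BRH.lean` (there `σ^p = 1`): the coefficient of `x y` at a fixed element `h` is the sum of
`x_g y_g'` over the pairs with `g g' = h`; `σ` acts on this set of pairs and preserves the terms; the nontrivial orbits have
`p^j` elements, `j ≥ 1`, and contribute `0` in characteristic `p` (`Pool.Agent.Helper98.EQ.S_ORB` with `s = 0` is such a
statement; you may assume it). -/
def S_BRH2 : Prop := ∀ (p : ℕ) [Fact p.Prime] (F : Type) [Field F] [CharP F p] (L : Type) [Group L]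
  [Finite L] (σ : L ≃* L) (k : ℕ), (∀ g, (σ^[p ^ k]) g = g) → ∀ x y : MonoidAlgebra F L,
  (∀ g, x.coeff (σ g) = x.coeff g) → (∀ g, y.coeff (σ g) = y.coeff g) →
  rs {g | σ g = g} (x * y) = rs {g | σ g = g} x * rs {g | σ g = g} y

/-- PACKET TRZ2 (the trace of `z π`, exact value; may assume `Pool.Agent.Helper98.EQ.S_ORB`, `S_PATH`, `S_IDR`).
Proof.  This is the packet TRZ of `Pool/Agent/Helper98/EQ/Goals.lean` (proof there) with the number `b` made explicit:
`b` = the rank of the submatrix on the fixed points modulo the maximal ideal. -/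
def S_TRZ2 : Prop := ∀ (p : ℕ) [Fact p.Prime] (R : Type) [CommRing R] [IsDomain R] [IsLocalRing R]
  [IsAdicComplete (maximalIdeal R) R], CharZero R → maximalIdeal R = Ideal.span {(p : R)} →
  ∀ (X : Type) [Fintype X] [DecidableEq X] (z : Equiv.Perm X) (k : ℕ), z ^ p ^ k = 1 →
  ∀ π : Matrix X X R, π * π = π → (∀ x y, π (z x) (z y) = π x y) →
  ∑ x, π x (z x) = ((Matrix.rank
    (Matrix.of fun (x y : {x // z x = x}) => residue R (π x.1 y.1)) : ℕ) : R)

/-- PACKET DMU (rank and dimension).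
Proof.  `B = {g | σ g = g}` is a subgroup, `y = rs B x` is supported on `B`.  The matrix `(y.coeff (g h⁻¹))_(g,h ∈ L)` of the left
multiplication with `y` is block diagonal for the right cosets `B g` (`y.coeff (g h⁻¹) = 0` unless `B g = B h`), and the block of
`B g₀` is, with `g = a g₀`, `h = b g₀`, the matrix `(x.coeff (a b⁻¹))_(a,b ∈ B)`.  So `dm y = [L : B] · rank`.  (TRA for the inclusion
`B → L` and `dm x' = rank` of the matrix of the left multiplication in the basis `B`; you may assume TRA.) -/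
def S_DMU : Prop := ∀ (F : Type) [Field F] (L : Type) [Group L] [Fintype L] [DecidableEq L]
  (σ : L ≃* L) (x : MonoidAlgebra F L),
  dm (rs {g | σ g = g} x) * Nat.card {g // σ g = g} =
    Nat.card L * (Matrix.of fun (a b : {g // σ g = g}) => x.coeff (a.1 * b.1⁻¹)).rank

/-- PACKET CYC2 (the trace of a monomial tensor with the exact exponent; may assume `Pool.Agent.Helper98.EQ.S_TEN`).
Proof.  The packet CYC of `Pool/Agent/Helper98/EQ/Goals.lean` with `c = zo g j`; see the proof there. -/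
def S_CYC2 : Prop := ∀ (p : ℕ) [Fact p.Prime] (A n R : Type) [Fintype A] [DecidableEq A] [Fintype n]
  [DecidableEq n] [CommRing R] (τ : ZMod p → Matrix n n R) (L : ℕ), τ 0 = 1 →
  (∀ j k, τ (j + k) = τ j * τ k) → (∀ j, (τ j).trace = if j = 0 then (L : R) else -1) →
  ∀ (g : Equiv.Perm A) (j : A → ZMod p),
    (tn (fun a => τ (j a)) * pm R g).trace = (-1) ^ nz g j * (L : R) ^ zo g j

/-- PACKET FXC (the number of the fixed vectors).
Proof.  `v` is fixed iff `v a = t(j a) (v (g⁻¹ a))` for all `a`.  On an orbit `o` of `g` with `J_o = ∑_{a ∈ o} j a`: going around,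
`v a = t(J_o) (v a)`; if `J_o ≠ 0`, `v = 0` on `o` (`T.inj`); if `J_o = 0`, `v` on `o` is given by its value at one point, which is
arbitrary (`|K| = l²` choices): `v (g^i a) = t(∑_{1 ≤ s ≤ i} j(g^s a)) (v a)` is well defined. -/
def S_FXC : Prop := ∀ (p : ℕ) [Fact p.Prime] (T : Dat p) (A : Type) [Fintype A] [DecidableEq A]
  (g : Equiv.Perm A) (j : A → ZMod p),
  Nat.card {v : A → T.K // ∀ a, T.t (j a) (v (g⁻¹ a)) = v a} = T.l ^ (2 * zo g j)

/-- PACKET ORP (parity of the number of orbits).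
Proof.  `nz g j + zo g j` is the number of the orbits of `g`; all orbits have `p^i` elements (`g^(p^k) = 1`), an odd number; so
`|A|`, the sum of the lengths, has the same parity as the number of orbits. -/
def S_ORP : Prop := ∀ (p : ℕ) [Fact p.Prime], p ≠ 2 → ∀ (A : Type) [Fintype A] (g : Equiv.Perm A)
  (k : ℕ), g ^ p ^ k = 1 → ∀ j : A → ZMod p, Even (Fintype.card A + nz g j + zo g j)

/-- PACKET FIN2 (positivity).
Proof.  Over an algebraic closure `K'` of the fraction field of `R`: `e₀ = |D|⁻¹ ∑_u P(u)` is idempotent and commutes with `J`, so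
`e₀ J` is idempotent and its trace is a natural number `N` (its rank; see `Pool/Agent/Helper40/EP/TR.lean`).
`∑_u f u = q ∑_u trace(P u J) = q |D| N` in `K'`, which has characteristic `0`, so in `ℤ`. -/
def S_FIN2 : Prop := ∀ (R X D : Type) [CommRing R] [IsDomain R] [Fintype X] [DecidableEq X] [Group D]
  [Fintype D], CharZero R → ∀ (P : D →* Matrix X X R) (J : Matrix X X R), J * J = J →
  (∀ d, P d * J = J * P d) → ∀ (q : ℕ) (f : D → ℤ),
  (∀ u : D, (q : R) * (P u * J).trace = (f u : R)) → 0 ≤ ∑ u, f u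

/-- PACKET HC (the group `(Z/p^k)^r`).
Proof.  `H = (Z/p^k)^r`.  Claim: `Gd (r - j) U` if `U` is generated by `j` elements `u_1, .., u_j` which are independent modulo `pH`
(i.e. their classes in `H/pH = (Z/p)^r` are linearly independent); `j = 0` is the goal.  Let `j < r`.  Such a `U` is free over
`Z/p^k` with the basis `u_i` (extend it to a basis of `H`: an `r × r` matrix over `Z/p^k` with invertible reduction mod `p` is
invertible), `|U| = p^(kj)`, `U ∩ p^s H = p^s U`, `#{x ∈ U | p x = 0} = p^j`.  (1) `u ∉ U`, `W = U + ⟨u⟩`: let `s ≥ 1` be minimal with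
`p^s u ∈ U` (so `s ≤ k`); `p^s u ∈ U ∩ p^s H = p^s U`, `p^s u = p^s u'`, `x = p^(s-1)(u - u') ∈ W`, `p x = 0`, `x ∉ U`; so the
elementary abelian group `W[p]` is strictly larger than `U[p]`, and `W[p]/U[p]` embeds into the cyclic group `W/U`, so it has
order `p`.  (2) `S` := the `u` which are not in `U + pH`: then `u_1, .., u_j, u` are independent mod `pH`, so `Gd (r-j-1)` holds for
`U + ⟨u⟩`.  `|U + pH| = p^j p^((k-1)r)` (the preimage of a `j`-dimensional subspace of `H/pH`), `|S| = p^(kr) - p^(j + (k-1)r)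
= (p^(k(r-j)) - p^((k-1)(r-j))) p^(kj)`. -/
def S_HC : Prop := ∀ (p : ℕ) [Fact p.Prime] (k r : ℕ), 1 ≤ k →
  Gd p k (Multiplicative (Fin r → ZMod (p ^ k))) r ⊥

/-- PACKET PAR2 (parity of the fixed points on `AS p Q`; may assume `Pool.Agent.Helper98.EQ.S_SET`).
Proof.  `V = K^A`, `A = AS p Q` = the pairs `(C, xC)`, `W` an abelian subgroup of `Q`.  The stabiliser of `a = (C, xC)` in `W` is
`W ∩ xCx⁻¹`: trivial, or `= xCx⁻¹ = P ≤ W` of order `p`; in the second case some `d` in it has `d a = a`, `c(d,a) ≠ 0` (`cc d a =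
chi(s⁻¹ d s)`, `chi` injective), so `v_a = 0` for a fixed vector `v` (`inj`).  On a free `W`-orbit a fixed vector is given by its
value at one point, arbitrary (`v_(w a) = t(c(w, w a)) v_a` is well defined).  So the number of fixed vectors is `l^(2a)`, `a` = the
number of the free `W`-orbits.  For every `P ≤ W` of order `p` the number of the `a` with `xCx⁻¹ = P` is `|Q|/p`
(`x ↦ (x⁻¹Px, x(x⁻¹Px))` from `Q`, fibres = cosets `Px`).  So `a |W| + s |Q|/p = |A|`, `s` = the number of the subgroups of order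
`p` of `W`; `s (p-1) + 1 = p^ρ`, so `s = 1 + p + .. + p^(ρ-1)` has the parity of `ρ`; `|W|` and `|Q|/p` are odd (if `ρ ≥ 1`; if
`ρ = 0`, then `W = 1`, `s = 0`, `a = |A|`).  So `a + ρ + |A|` is even. -/
def S_PAR2 : Prop := ∀ (p : ℕ) [Fact p.Prime] (T : Dat p) (Q : Type) [Group Q] [Finite Q], p ≠ 2 →
  IsPGroup p Q → ∀ (hc : Coc (A := AS p Q) (D := Q) cc) (W : Subgroup Q),
  (∀ x ∈ W, ∀ y ∈ W, x * y = y * x) → ∀ a ρ : ℕ, fx (mono T cc hc) W = T.l ^ (2 * a) →
  tp p W = p ^ ρ → Even (Fintype.card (AS p Q) + a + ρ)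

/-! ### the assembly (helper47) -/

/-- LVL: the inequality of one level -/
def S_LVL : Prop := ∀ (p : ℕ) [Fact p.Prime], p ≠ 2 → ∀ (T : Dat p) (A : Type) [Fintype A]
  [DecidableEq A] (H : Type) [Group H] [Fintype H], IsPGroup p H → ∀ [MulAction H A]
  (c : H → A → ZMod p) (hc : Coc c) (F : Type) [Field F] [IsAlgClosed F] [CharP F p] (C : Chr T F)
  (i : MonoidAlgebra F (Hs T A)), i * i = i → ee C A * i = i → Iv (mono T c hc) i →
  ∀ a : H → ℕ, (∀ u, Nat.card {v : A → T.K // (mono T c hc).m u v = v} = T.l ^ (2 * a u)) →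
  0 ≤ ∑ u, (-1 : ℤ) ^ (Fintype.card A + a u) *
    (dm (rs {g | (mono T c hc).s u g = g} i) : ℤ) * (T.l : ℤ) ^ a u

/-- IND: the induction over the levels -/
def S_IND : Prop := ∀ (p : ℕ) [Fact p.Prime], p ≠ 2 → ∀ (T : Dat p), Sc T → ∀ (k : ℕ) (H : Type)
  [CommGroup H] [Finite H], IsPGroup p H → ∀ (F : Type) [Field F] [IsAlgClosed F] [CharP F p]
  (C : Chr T F) (r : ℕ) (U : Subgroup H) (A : Type) [Fintype A] [DecidableEq A] [MulAction H A]
  (c : H → A → ZMod p) (hc : Coc c) (m₀ : ℕ), (∀ u ∈ U, ∀ v, (mono T c hc).m u v = v) →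
  Par (mono T c hc) U m₀ → Gd p k H r U → ∀ i : MonoidAlgebra F (Hs T A), i * i = i →
  ee C A * i = i → Iv (mono T c hc) i → i.coeff 1 ≠ 0 →
  bet p k r * T.l ^ Fintype.card A ≤ dm i

/-- the theorem -/
def S_MAIN : Prop := ∀ (p : ℕ) [Fact p.Prime], p ≠ 2 → ∀ (𝒪 : Type) [CommRing 𝒪] [IsLocalRing 𝒪]
  [IsNoetherianRing 𝒪] [IsAdicComplete (maximalIdeal 𝒪) 𝒪] [IsAlgClosed (ResidueField 𝒪)]
  [CharP (ResidueField 𝒪) p] (D : Type) [Group D] [Finite D], IsPGroup p D →
  ∀ (Q : Type) [Group Q] (φ : D →* Q), Function.Surjective φ → ∀ k r : ℕ, 1 ≤ k →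
  ∀ ι : Multiplicative (Fin r → ZMod (p ^ k)) →* Q, Function.Injective ι →
  ∃ n, Pool.Agent.Helper47.EP.OccursIn 𝒪 p D n ∧ bet p k r ≤ n

end Pool.Agent.Helper47.ER
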