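import Pool.Agent.Helper47.ER.Lvl

/-!
# Project ER: the induction over the levels (assembly)
-/

set_option autoImplicit false
set_option linter.unusedSectionVars false

namespace Pool.Agent.Helper47.ER

open MonoidAlgebra IsLocalRing Pool.Agent.Helper17.PF
open Pool.Agent.Helper98.EQ (SA Iv Imp Coc mono tn pm nz AS cc coeff_mul_sum iv_comm)
open Pool.Agent.Helper47.EP (Dat Chr Hs Om ee ev kap dm rs pHB pSIM pCHR card_Hs dm_map cred
  rs_mem rs_not)

variable {p : ℕ} {T : Dat p}

theorem map_ee {A A' : Type} [Fintype A] [DecidableEq A] [Fintype A'] [DecidableEq A']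
    {R : Type} [CommRing R] (C : Chr T R) (Ψ : Hs T A' →* Hs T A)
    (hz : ∀ z : ZMod T.l, Ψ ⟨0, z⟩ = ⟨0, z⟩) :
    MonoidAlgebra.mapDomainRingHom R Ψ (ee C A') = ee C A := by
  have h1 : ∀ (c : R) (x : MonoidAlgebra R (Hs T A')),
      MonoidAlgebra.mapDomainRingHom R Ψ (c • x) =
        c • MonoidAlgebra.mapDomainRingHom R Ψ x := by
    intro c x
    exact MonoidAlgebra.mapDomain_smul ..
  unfold ee
  rw [h1, map_sum]
  congr 1
  refine Finset.sum_congr rfl fun z _ => ?_
  rw [mapDomainRingHom_apply, mapDomain_single, hz]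

/-- the part of the induction step at one element `u` -/
theorem step_u (hred : S_RED) (htra : S_TRA) (hbrh : S_BRH2) [Fact p.Prime]
    (T : Dat p) (hSc : Sc T) (H : Type) [CommGroup H] [Finite H] (hH : IsPGroup p H)
    (F : Type) [Field F] [IsAlgClosed F] [CharP F p] (C : Chr T F) (β : ℕ) (U : Subgroup H)
    (A : Type) [Fintype A] [DecidableEq A] [MulAction H A] (c : H → A → ZMod p) (hc : Coc c)
    (m₀ : ℕ) (hU : ∀ u ∈ U, ∀ v, (mono T c hc).m u v = v) (hpar : Par (mono T c hc) U m₀)
    (i : MonoidAlgebra F (Hs T A)) (hi1 : i * i = i) (hi2 : ee C A * i = i)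
    (hi3 : Iv (mono T c hc) i) (hi4 : i.coeff 1 ≠ 0) (u : H) :
    ∃ a : ℕ, Nat.card {v : A → T.K // (mono T c hc).m u v = v} = T.l ^ (2 * a) ∧
      ((∀ (A' : Type) [Fintype A'] [DecidableEq A'] [MulAction H A'] (c' : H → A' → ZMod p)
        (hc' : Coc c'), (∀ w ∈ U ⊔ Subgroup.zpowers u, ∀ v, (mono T c' hc').m w v = v) →
        Par (mono T c' hc') (U ⊔ Subgroup.zpowers u) m₀ → ∀ i' : MonoidAlgebra F (Hs T A'),
        i' * i' = i' → ee C A' * i' = i' → Iv (mono T c' hc') i' → i'.coeff 1 ≠ 0 →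
        β * T.l ^ Fintype.card A' ≤ dm i') →
      β * T.l ^ (2 * Fintype.card A) ≤
        dm (rs {g | (mono T c hc).s u g = g} i) * T.l ^ a) := by
  classical
  set M := mono T c hc with hM
  obtain ⟨A', _, _, _, c', hc', Ψ, hΨ1, hΨ2, hΨ3, hΨ4, hΨ5⟩ :=
    hred p T hSc A H hH c hc u (fun h => mul_comm h u)
  set M' := mono T c' hc' with hM'
  have hl : 0 < T.l := T.prime.pos
  -- the embedding of the symplectic space
  set ψ : (A' → T.K) → (A → T.K) := fun v' => (Ψ ⟨v', 0⟩).v with hψ
  have hΨψ : ∀ (v' : A' → T.K), Ψ ⟨v', 0⟩ = ⟨ψ v', 0⟩ := by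
    intro v'
    ext1
    · rfl
    · exact hΨ2 _
  have hψi : Function.Injective ψ := by
    intro v' w' h
    have h1 : Ψ ⟨v', 0⟩ = Ψ ⟨w', 0⟩ := by
      rw [hΨψ, hΨψ, h]
    exact congrArg (fun g : Hs T A' => g.v) (hΨ1 h1)
  have hψm : ∀ (h : H) (v' : A' → T.K), ψ (M'.m h v') = M.m h (ψ v') := by
    intro h v'
    have h1 := hΨ5 h ⟨v', 0⟩
    rw [hΨψ] at h1
    exact congrArg (fun g : Hs T A => g.v) h1
  have hψr : ∀ v : A → T.K, M.m u v = v → ∃ v', ψ v' = v := by
    intro v hv
    have h1 : M.s u (⟨v, 0⟩ : Hs T A) = ⟨v, 0⟩ := by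
      rw [SA.s_apply]
      show (⟨M.m u v, 0⟩ : Hs T A) = ⟨v, 0⟩
      rw [hv]
    obtain ⟨g', hg'⟩ := (hΨ4 _).1 h1
    have h2 : g' = ⟨g'.v, 0⟩ := by
      ext1
      · rfl
      · have := hΨ2 g'
        rw [hg'] at this
        exact this.symm
    refine ⟨g'.v, ?_⟩
    rw [h2] at hg'
    exact congrArg (fun g : Hs T A => g.v) hg'
  have hψu : ∀ v' : A' → T.K, M.m u (ψ v') = ψ v' := by
    intro v'
    have h1 := (hΨ4 (Ψ ⟨v', 0⟩)).2 ⟨_, rfl⟩
    exact congrArg (fun g : Hs T A => g.v) h1
  have hu' : ∀ v', M'.m u v' = v' := by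
    intro v'
    apply hψi
    rw [hψm, hψu]
  have hU' : ∀ w ∈ U, ∀ v', M'.m w v' = v' := by
    intro w hw v'
    apply hψi
    rw [hψm, hU w hw]
  -- the elements which act trivially
  let Tr : Subgroup H :=
    { carrier := {h | ∀ v', M'.m h v' = v'}
      one_mem' := fun v' => M'.one v'
      mul_mem' := fun {a b} ha hb v' => by rw [M'.mul, hb, ha]
      inv_mem' := fun {a} ha v' => by
        conv_lhs => rw [← ha v']
        exact M'.inv_left a v' }
  have hTr : U ⊔ Subgroup.zpowers u ≤ Tr := by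
    refine sup_le (fun w hw => hU' w hw) ?_
    rw [Subgroup.zpowers_le]
    exact hu'
  have hfx : ∀ W : Subgroup H, u ∈ W → fx M' W = fx M W := by
    intro W hW
    unfold fx
    refine Nat.card_eq_of_bijective
      (fun v' : {v' : A' → T.K // ∀ h ∈ W, M'.m h v' = v'} =>
        (⟨ψ v'.1, fun h hh => by rw [← hψm, v'.2 h hh]⟩ :
          {v : A → T.K // ∀ h ∈ W, M.m h v = v})) ⟨?_, ?_⟩
    · intro v' w' h
      exact Subtype.ext (hψi (congrArg Subtype.val h))
    · rintro ⟨v, hv⟩
      obtain ⟨v', hv'⟩ := hψr v (hv u hW)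
      refine ⟨⟨v', fun h hh => ?_⟩, Subtype.ext hv'⟩
      apply hψi
      rw [hψm, hv', hv h hh]
  have hcard : Nat.card {v : A → T.K // M.m u v = v} = T.l ^ (2 * Fintype.card A') := by
    have h1 : Nat.card {v : A → T.K // M.m u v = v} = Nat.card (A' → T.K) := by
      symm
      refine Nat.card_eq_of_bijective
        (fun v' => (⟨ψ v', hψu v'⟩ : {v : A → T.K // M.m u v = v})) ⟨?_, ?_⟩
      · intro v' w' h
        exact hψi (congrArg Subtype.val h)
      · rintro ⟨v, hv⟩
        obtain ⟨v', hv'⟩ := hψr v hv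
        exact ⟨v', Subtype.ext hv'⟩
    rw [h1, Nat.card_fun, Nat.card_eq_fintype_card, Nat.card_eq_fintype_card, T.card, ← pow_mul]
  refine ⟨Fintype.card A', hcard, fun hIH => ?_⟩
  -- the idempotent
  set B : Set (Hs T A) := {g | M.s u g = g} with hB
  have hBm : ∀ g, g ∈ B ↔ M.s u g = g := fun _ => Iff.rfl
  obtain ⟨i', hi'1, hi'2, hi'3⟩ := htra F (Hs T A') (Hs T A) Ψ hΨ1 (rs B i) (by
    intro g hg
    by_contra hcon
    apply hg
    apply rs_not
    intro hgB
    exact hcon ((hΨ4 g).1 hgB))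
  obtain ⟨k, hk⟩ := hH u
  have hB0 : ∀ x y : MonoidAlgebra F (Hs T A), Iv M x → Iv M y →
      rs B (x * y) = rs B x * rs B y := by
    intro x y hx hy
    refine hbrh p F (Hs T A) (M.s u) k ?_ x y (fun g => hx u g) (fun g => hy u g)
    intro g
    have h1 : ∀ m : ℕ, ((M.s u)^[m]) g = M.s (u ^ m) g := by
      intro m
      induction m with
      | zero =>
        rw [pow_zero, map_one]
        rfl
      | succ m ih =>
        rw [Function.iterate_succ_apply', ih, pow_succ', map_mul]
        rfl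
    rw [h1, hk, map_one]
    rfl
  have hmi : Function.Injective (MonoidAlgebra.mapDomainRingHom F Ψ) := by
    intro x y hxy
    rw [mapDomainRingHom_apply, mapDomainRingHom_apply] at hxy
    exact mapDomain_injective hΨ1 hxy
  obtain ⟨hb1, hb2, -, -, hb5, -, -⟩ := pHB p T A F C
  have hee : ∀ g, (ee C A).coeff g = if g.v = 0 then C.il * C.ψ (-g.z) else 0 := by
    intro g
    have h1 : ev C (0 : A → T.K) = ee C A := by
      unfold ev
      have : (⟨0, 0⟩ : Hs T A) = 1 := rfl
      rw [this, ← one_def, one_mul]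
    rw [← h1]
    exact hb5 0 g
  have hm0 : ∀ h, M.m h 0 = 0 := by
    intro h
    have h1 := M.add h 0 0
    rw [add_zero] at h1
    exact left_eq_add.1 h1
  have heeI : Iv M (ee C A) := by
    intro h g
    rw [hee, hee, SA.s_apply]
    show (if M.m h g.v = 0 then C.il * C.ψ (-g.z) else 0) = _
    have h1 : M.m h g.v = 0 ↔ g.v = 0 := by
      constructor
      · intro h2
        have := congrArg (M.m h⁻¹) h2
        rw [M.inv_left, hm0] at this
        exact this
      · intro h2
        rw [h2, hm0]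
    simp only [h1]
  have heeB : rs B (ee C A) = ee C A := by
    ext g
    by_cases hg : g ∈ B
    · rw [rs_mem _ hg]
    · rw [rs_not _ hg, hee, if_neg]
      intro h1
      apply hg
      rw [hBm, SA.s_apply]
      ext1
      · show M.m u g.v = g.v
        rw [h1, hm0]
      · rfl
  have h1 : i' * i' = i' := by
    apply hmi
    rw [map_mul, hi'2, ← hB0 i i hi3 hi3, hi1]
  have h2 : ee C A' * i' = i' := by
    apply hmi
    rw [map_mul, hi'2, map_ee C Ψ hΨ3]
    conv_lhs => rw [← heeB]
    rw [← hB0 _ i heeI hi3, hi2]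
  have h3 : Iv M' i' := by
    intro h g
    rw [hi'1, hi'1, hΨ5]
    have hg : Ψ g ∈ B := (hΨ4 _).2 ⟨g, rfl⟩
    have hg2 : M.s h (Ψ g) ∈ B := by
      rw [hBm]
      have : M.s u (M.s h (Ψ g)) = M.s (u * h) (Ψ g) := by
        rw [map_mul]
        rfl
      rw [this, mul_comm, map_mul]
      show M.s h (M.s u (Ψ g)) = M.s h (Ψ g)
      rw [(hBm _).1 hg]
    rw [rs_mem _ hg, rs_mem _ hg2, hi3]
  have h4 : i'.coeff 1 ≠ 0 := by
    rw [hi'1, map_one, rs_mem]
    · exact hi4
    · rw [hBm, map_one]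
  have h5 : Par M' (U ⊔ Subgroup.zpowers u) m₀ := by
    intro W hW a ρ hf ht
    refine hpar W (le_trans le_sup_left hW) a ρ ?_ ht
    rw [← hfx W (hW (Subgroup.mem_sup_right (Subgroup.mem_zpowers u)))]
    exact hf
  have h6 := hIH A' c' hc' (fun w hw => hTr hw) h5 i' h1 h2 h3 h4
  rw [card_Hs, card_Hs] at hi'3
  have h7 : dm (rs B i) * T.l ^ (2 * Fintype.card A') = dm i' * T.l ^ (2 * Fintype.card A) := by
    apply Nat.eq_of_mul_eq_mul_right hl
    linarith [hi'3]
  have h8 : T.l ^ (2 * Fintype.card A') = T.l ^ Fintype.card A' * T.l ^ Fintype.card A' := by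
    rw [two_mul, pow_add]
  rw [h8] at h7
  refine Nat.le_of_mul_le_mul_right ?_ (pow_pos hl (Fintype.card A'))
  calc β * T.l ^ (2 * Fintype.card A) * T.l ^ Fintype.card A' =
      (β * T.l ^ Fintype.card A') * T.l ^ (2 * Fintype.card A) := by ring
    _ ≤ dm i' * T.l ^ (2 * Fintype.card A) := Nat.mul_le_mul_right _ h6
    _ = dm (rs B i) * (T.l ^ Fintype.card A' * T.l ^ Fintype.card A') := h7.symm
    _ = dm (rs B i) * T.l ^ Fintype.card A' * T.l ^ Fintype.card A' := by ring

/-- the number of the solutions of `x ^ p = 1` is a power of `p` -/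
theorem tp_pow [Fact p.Prime] {H : Type} [CommGroup H] [Finite H] (hH : IsPGroup p H)
    (W : Subgroup H) : ∃ ρ, tp p W = p ^ ρ := by
  have h1 : tp p W = Nat.card (W ⊓ (powMonoidHom p : H →* H).ker : Subgroup H) := rfl
  rw [h1]
  exact IsPGroup.iff_card.1 (hH.to_subgroup _)

/-- the induction over the levels -/
theorem ind (hred : S_RED) (htra : S_TRA) (hbrh : S_BRH2) (hlvl : S_LVL) : S_IND := by
  intro p _ hp2 T hSc k H _ _ hH F _ _ _ C r
  induction r with
  | zero =>
    intro U A _ _ _ c hc m₀ hU hpar hG i hi1 hi2 hi3 hi4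
    obtain ⟨ρ, -, -, -, hρ⟩ := Pool.Agent.Helper30.EP.REP.t pHB pSIM p T A F C
    have h1 : bet p k 0 = 1 := rfl
    rw [h1, one_mul, hρ i hi2]
    have h2 : dm i ≠ 0 := by
      unfold dm
      have h3 : i ∈ LinearMap.range (LinearMap.mulLeft F i) := ⟨1, by simp⟩
      have h4 : i ≠ 0 := by
        intro h
        apply hi4
        rw [h]
        rfl
      intro h5
      have : Module.Finite F (MonoidAlgebra F (Hs T A)) :=
        Module.Finite.equiv (coeffLinearEquiv (S := F) (R := F) (M := Hs T A)).symm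
      have h6 := Submodule.finrank_eq_zero.1 h5
      rw [h6] at h3
      exact h4 ((Submodule.mem_bot F).1 h3)
    rw [hρ i hi2] at h2
    have h3 : 1 ≤ Module.finrank F (LinearMap.range (ρ i)) := by
      rcases Nat.eq_zero_or_pos (Module.finrank F (LinearMap.range (ρ i))) with h | h
      · rw [h, mul_zero] at h2
        exact absurd rfl h2
      · exact h
    exact Nat.le_mul_of_pos_right _ h3
  | succ r ih =>
    intro U A _ _ _ c hc m₀ hU hpar hG i hi1 hi2 hi3 hi4
    classical
    have hFin : Fintype H := Fintype.ofFinite H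
    obtain ⟨hG1, S, hS1, hS2⟩ := hG
    have hl : 0 < T.l := T.prime.pos
    have hst := fun u => step_u hred htra hbrh T hSc H hH F C (bet p k r) U A c hc m₀ hU hpar i hi1
      hi2 hi3 hi4 u
    choose a ha hb using hst
    have hlv := hlvl p hp2 T A H hH c hc F C i hi1 hi2 hi3 a ha
    set M := mono T c hc with hM
    set n := Fintype.card A with hn
    obtain ⟨ρ, hρ⟩ := tp_pow hH U
    -- the elements of `U`
    have hfu : ∀ W : Subgroup H, ∀ u, U ⊔ Subgroup.zpowers u = W →
        fx M W = Nat.card {v : A → T.K // M.m u v = v} := by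
      intro W u hW
      unfold fx
      refine Nat.card_congr (Equiv.subtypeEquivRight fun v => ⟨fun h => ?_, fun h => ?_⟩)
      · exact h u (by rw [← hW]; exact Subgroup.mem_sup_right (Subgroup.mem_zpowers u))
      · let St : Subgroup H :=
          { carrier := {h | M.m h v = v}
            one_mem' := M.one v
            mul_mem' := fun {a b} ha hb => by
              show M.m (a * b) v = v
              rw [M.mul, hb, ha]
            inv_mem' := fun {a} ha => by
              show M.m a⁻¹ v = v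
              have ha' : M.m a v = v := ha
              conv_lhs => rw [← ha']
              exact M.inv_left a v }
        have h1 : W ≤ St := by
          rw [← hW]
          refine sup_le (fun w hw => hU w hw v) ?_
          rw [Subgroup.zpowers_le]
          exact h
        exact fun x hx => h1 hx
    have haU : ∀ u ∈ U, a u = n := by
      intro u hu
      have h1 : Nat.card {v : A → T.K // M.m u v = v} = T.l ^ (2 * n) := by
        have h2 : Nat.card {v : A → T.K // M.m u v = v} = Nat.card (A → T.K) :=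
          Nat.card_congr
            { toFun := fun v => v.1
              invFun := fun v => ⟨v, hU u hu v⟩
              left_inv := fun _ => rfl
              right_inv := fun _ => rfl }
        rw [h2, Nat.card_fun, Nat.card_eq_fintype_card, Nat.card_eq_fintype_card, T.card,
          ← pow_mul]
      rw [ha u] at h1
      have := Nat.pow_right_injective T.prime.two_le h1
      omega
    have hiU : ∀ u ∈ U, rs {g | M.s u g = g} i = i := by
      intro u hu
      ext g
      rw [rs_mem]
      show M.s u g = g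
      rw [SA.s_apply]
      ext1
      · exact hU u hu g.v
      · rfl
    have hpU : Even (m₀ + n + ρ) := by
      refine hpar U le_rfl n ρ ?_ hρ
      have h1 := hfu (U ⊔ Subgroup.zpowers 1) 1 rfl
      rw [Subgroup.zpowers_one_eq_bot, sup_bot_eq, ha, haU 1 U.one_mem] at h1
      exact h1
    have hsg : ∀ u, u ∉ U → (-1 : ℤ) ^ (n + a u) = -1 := by
      intro u hu
      have h1 := hG1 u hu
      rw [hρ, ← pow_succ'] at h1
      have h2 := hpar (U ⊔ Subgroup.zpowers u) le_sup_left (a u) (ρ + 1)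
        (by rw [hfu _ u rfl, ha]) h1
      refine Odd.neg_one_pow ?_
      rw [Nat.even_iff] at hpU h2
      rw [Nat.odd_iff]
      omega
    have hsum : ∑ u, (-1 : ℤ) ^ (n + a u) *
        (dm (rs {g | M.s u g = g} i) : ℤ) * (T.l : ℤ) ^ a u =
        (Nat.card U : ℤ) * ((dm i : ℤ) * (T.l : ℤ) ^ n) -
          ∑ u ∈ Finset.univ.filter (fun u => u ∉ U),
            (dm (rs {g | M.s u g = g} i) : ℤ) * (T.l : ℤ) ^ a u := by
      rw [← Finset.sum_filter_add_sum_filter_not Finset.univ (fun u => u ∈ U), sub_eq_add_neg]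
      congr 1
      · rw [Finset.sum_congr rfl (g := fun _ => (dm i : ℤ) * (T.l : ℤ) ^ n) (by
          intro u hu
          have hu' := (Finset.mem_filter.1 hu).2
          rw [haU u hu', hiU u hu', (Even.add_self n).neg_one_pow, one_mul])]
        rw [Finset.sum_const, nsmul_eq_mul]
        congr 2
        rw [Nat.card_eq_fintype_card, Fintype.card_subtype]
      · rw [← Finset.sum_neg_distrib]
        refine Finset.sum_congr rfl fun u hu => ?_
        rw [hsg u (Finset.mem_filter.1 hu).2]
        ring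
    rw [hsum] at hlv
    have hS3 : ∀ u ∈ S, bet p k r * T.l ^ (2 * n) ≤
        dm (rs {g | M.s u g = g} i) * T.l ^ a u := by
      intro u hu
      refine hb u ?_
      intro A' _ _ _ c' hc' h1 h2 i' h3 h4 h5 h6
      exact ih (U ⊔ Subgroup.zpowers u) A' c' hc' m₀ h1 h2 (hS1 u hu).2 i' h3 h4 h5 h6
    have hSs : S ⊆ Finset.univ.filter (fun u => u ∉ U) := by
      intro u hu
      exact Finset.mem_filter.2 ⟨Finset.mem_univ _, (hS1 u hu).1⟩
    have h9 : S.card * (bet p k r * T.l ^ (2 * n)) ≤ Nat.card U * (dm i * T.l ^ n) := by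
      have h10 : ((S.card * (bet p k r * T.l ^ (2 * n)) : ℕ) : ℤ) ≤
          ∑ u ∈ Finset.univ.filter (fun u => u ∉ U),
            (dm (rs {g | M.s u g = g} i) : ℤ) * (T.l : ℤ) ^ a u := by
        calc ((S.card * (bet p k r * T.l ^ (2 * n)) : ℕ) : ℤ) =
            ∑ u ∈ S, ((bet p k r * T.l ^ (2 * n) : ℕ) : ℤ) := by
              rw [Finset.sum_const, nsmul_eq_mul]
              push_cast
              ring
          _ ≤ ∑ u ∈ S, (dm (rs {g | M.s u g = g} i) : ℤ) * (T.l : ℤ) ^ a u :=
              Finset.sum_le_sum fun u hu => by exact_mod_cast hS3 u hu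
          _ ≤ _ := Finset.sum_le_sum_of_subset_of_nonneg hSs fun _ _ _ => by positivity
      have h11 : ((S.card * (bet p k r * T.l ^ (2 * n)) : ℕ) : ℤ) ≤
          ((Nat.card U * (dm i * T.l ^ n) : ℕ) : ℤ) := by
        push_cast
        push_cast at h10
        linarith
      exact_mod_cast h11
    have hbet : bet p k (r + 1) = bet p k r * (p ^ (k * (r + 1)) - p ^ ((k - 1) * (r + 1))) := by
      unfold bet
      rw [Finset.prod_range_succ]
    have hUc : 0 < Nat.card U := Nat.card_pos
    have h12 : T.l ^ (2 * n) = T.l ^ n * T.l ^ n := by rw [two_mul, pow_add]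
    refine Nat.le_of_mul_le_mul_right (c := T.l ^ n * Nat.card U) ?_
      (Nat.mul_pos (pow_pos hl n) hUc)
    calc bet p k (r + 1) * T.l ^ n * (T.l ^ n * Nat.card U) =
        ((p ^ (k * (r + 1)) - p ^ ((k - 1) * (r + 1))) * Nat.card U) *
          (bet p k r * T.l ^ (2 * n)) := by
          rw [hbet, h12]
          ring
      _ ≤ S.card * (bet p k r * T.l ^ (2 * n)) := Nat.mul_le_mul_right _ hS2
      _ ≤ Nat.card U * (dm i * T.l ^ n) := h9
      _ = dm i * (T.l ^ n * Nat.card U) := by ring

end Pool.Agent.Helper47.ER
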