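import Pool.Agent.Helper47.ER.Goals

/-!
# Project ER: the inequality of one level (assembly)
-/

set_option autoImplicit false
set_option linter.unusedSectionVars false

namespace Pool.Agent.Helper47.ER

open MonoidAlgebra IsLocalRing Pool.Agent.Helper17.PF
open Pool.Agent.Helper98.EQ (SA Iv Imp Coc mono tn pm nz AS cc coeff_mul_sum iv_comm)
open Pool.Agent.Helper47.EP (Dat Chr Hs Om ee ev kap dm rs pHB pSIM pCHR card_Hs dm_map cred
  rs_mem rs_not)

variable {p : ℕ} {T : Dat p} {A : Type} [Fintype A] [DecidableEq A] {H : Type} [Group H]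

/-- the number of the fixed points on the Heisenberg group -/
theorem card_fix (M : SA T A H) (u : H) (a : ℕ)
    (ha : Nat.card {v : A → T.K // M.m u v = v} = T.l ^ (2 * a)) :
    Nat.card {g : Hs T A // M.s u g = g} = T.l ^ (2 * a) * T.l := by
  rw [← ha]
  have h1 : Nat.card {g : Hs T A // M.s u g = g} =
      Nat.card ({v : A → T.K // M.m u v = v} × ZMod T.l) := by
    refine Nat.card_congr
      { toFun := fun g => (⟨g.1.v, congrArg (fun x : Hs T A => x.v) g.2⟩, g.1.z)
        invFun := fun x => ⟨⟨x.1.1, x.2⟩, by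
          rw [SA.s_apply]
          show (⟨M.m u x.1.1, x.2⟩ : Hs T A) = ⟨x.1.1, x.2⟩
          rw [x.1.2]⟩
        left_inv := fun g => rfl
        right_inv := fun x => rfl }
  rw [h1, Nat.card_prod, Nat.card_zmod]

/-- the inequality over a local ring of characteristic `0` -/
theorem lnum (hsch : Pool.Agent.Helper98.EQ.S_SCH) (hone : Pool.Agent.Helper98.EQ.S_ONE)
    (hphi : Pool.Agent.Helper98.EQ.S_PHI) (himp : Pool.Agent.Helper98.EQ.S_IMP)
    (htru : Pool.Agent.Helper98.EQ.S_TRU) (hcyc : S_CYC2) (horp : S_ORP) (hfxc : S_FXC)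
    (htrz : S_TRZ2) (hdmu : S_DMU) (hfin : S_FIN2) [Fact p.Prime] (hp2 : p ≠ 2)
    (T : Dat p) (A : Type) [Fintype A] [DecidableEq A] (H : Type) [Group H] [Fintype H]
    (hH : IsPGroup p H) [MulAction H A] (c : H → A → ZMod p)
    (hc : Coc c) (R : Type) [CommRing R] [IsDomain R] [IsLocalRing R]
    [IsAdicComplete (maximalIdeal R) R] (hch : CharZero R)
    (hmax : maximalIdeal R = Ideal.span {(p : R)}) (C : Chr T R)
    (i : MonoidAlgebra R (Hs T A)) (hi1 : i * i = i) (hi2 : ee C A * i = i)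
    (hi3 : Iv (mono T c hc) i) (a : H → ℕ)
    (ha : ∀ u, Nat.card {v : A → T.K // (mono T c hc).m u v = v} = T.l ^ (2 * a u)) :
    0 ≤ ∑ u, (-1 : ℤ) ^ (Fintype.card A + a u) *
      (dm (rs {g | (mono T c hc).s u g = g} (red R (Hs T A) i)) : ℤ) * (T.l : ℤ) ^ a u := by
  classical
  obtain ⟨S, hS1, hS2, hS3⟩ := hsch p T R C
  obtain ⟨τ, hτ0, hτ1, hτ2, hτ3⟩ := hone p T R C S hS1 hS2 hS3
  obtain ⟨Φ, hΦ1, hΦ2, hΦ3, hΦ4, hΦ5⟩ := hphi p T A R C S hS1 hS2 hS3
  obtain ⟨I, hI⟩ := himp p T A H c hc R C S τ hτ0 hτ1 hτ2 Φ hΦ1 hΦ2 hΦ3 hΦ4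
  let P : H →* Matrix (A → ZMod T.l) (A → ZMod T.l) R :=
    { toFun := fun d => Φ (I.r d)
      map_one' := by rw [I.one, hΦ2]
      map_mul' := fun d d' => by rw [I.mul, map_mul] }
  have hP : ∀ d, P d = Φ (I.r d) := fun _ => rfl
  have hl : (T.l : R) ≠ 0 := by
    rw [Nat.cast_ne_zero]
    exact T.prime.ne_zero
  refine hfin R (A → ZMod T.l) H hch P (Φ i) (by rw [← map_mul, hi1]) ?_
    (T.l ^ (2 * Fintype.card A)) _ ?_
  · intro d
    rw [hP, ← map_mul, ← map_mul, iv_comm I hi3]
  · intro u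
    obtain ⟨k, hk⟩ := hH u
    have hz : ((mono T c hc).s u : Hs T A ≃ Hs T A) ^ p ^ k = 1 := by
      have h1 : ∀ m : ℕ, ((mono T c hc).s u : Hs T A ≃ Hs T A) ^ m =
          ((mono T c hc).s (u ^ m) : Hs T A ≃ Hs T A) := by
        intro m
        induction m with
        | zero =>
          rw [pow_zero, pow_zero, map_one]
          rfl
        | succ m ih =>
          rw [pow_succ, ih, pow_succ, map_mul]
          rfl
      rw [h1, hk, map_one]
      rfl
    let π : Matrix (Hs T A) (Hs T A) R := fun g h => i.coeff (g * h⁻¹)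
    have hπ1 : π * π = π := by
      funext g h
      rw [Matrix.mul_apply]
      show ∑ k, i.coeff (g * k⁻¹) * i.coeff (k * h⁻¹) = i.coeff (g * h⁻¹)
      conv_rhs => rw [← hi1]
      rw [coeff_mul_sum]
      refine Fintype.sum_equiv ((Equiv.inv _).trans (Equiv.mulLeft g)) _ _ fun k => ?_
      show i.coeff (g * k⁻¹) * i.coeff (k * h⁻¹) =
        i.coeff (g * k⁻¹) * i.coeff ((g * k⁻¹)⁻¹ * (g * h⁻¹))
      rw [mul_inv_rev, inv_inv, mul_assoc, inv_mul_cancel_left]
    have hπ2 : ∀ x y, π (((mono T c hc).s u : Hs T A ≃ Hs T A) x)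
        (((mono T c hc).s u : Hs T A ≃ Hs T A) y) = π x y := by
      intro x y
      show i.coeff ((mono T c hc).s u x * ((mono T c hc).s u y)⁻¹) = i.coeff (x * y⁻¹)
      rw [← map_inv, ← map_mul, hi3]
    have hb1 := htrz p R hch hmax (Hs T A) ((mono T c hc).s u : Hs T A ≃ Hs T A) k hz π hπ1 hπ2
    have hd := hdmu (ResidueField R) (Hs T A) ((mono T c hc).s u) (red R (Hs T A) i)
    rw [card_fix (mono T c hc) u (a u) (ha u), card_Hs] at hd
    have hb2 : (Matrix.rank (Matrix.of fun (x y : {x // ((mono T c hc).s u : Hs T A ≃ Hs T A) x = x})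
        => residue R (π x.1 y.1))) = (Matrix.rank (Matrix.of fun
        (x y : {g // (mono T c hc).s u g = g}) => (red R (Hs T A) i).coeff (x.1 * y.1⁻¹))) := by
      have : (Matrix.of fun (x y : {g // (mono T c hc).s u g = g}) =>
          (red R (Hs T A) i).coeff (x.1 * y.1⁻¹)) =
          Matrix.of fun (x y : {x // ((mono T c hc).s u : Hs T A ≃ Hs T A) x = x})
            => residue R (π x.1 y.1) := by
        funext x y
        show (red R (Hs T A) i).coeff (x.1 * y.1⁻¹) = residue R (i.coeff (x.1 * y.1⁻¹))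
        rw [cred]
      rw [this]
      rfl
    rw [hb2] at hb1
    set b := (Matrix.rank (Matrix.of fun
        (x y : {g // (mono T c hc).s u g = g}) => (red R (Hs T A) i).coeff (x.1 * y.1⁻¹)))
      with hb
    set δ := dm (rs {g | (mono T c hc).s u g = g} (red R (Hs T A) i)) with hδ
    have hd' : (δ : R) * (T.l : R) ^ (2 * a u) = (T.l : R) ^ (2 * Fintype.card A) * (b : R) := by
      have h1 : (δ : R) * ((T.l : R) ^ (2 * a u) * (T.l : R)) =
          (T.l : R) ^ (2 * Fintype.card A) * (T.l : R) * (b : R) := by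
        exact_mod_cast congrArg (Nat.cast : ℕ → R) hd
      apply mul_right_cancel₀ hl
      linear_combination h1
    have h2 := htru p T A H (mono T c hc) R C I i hi2 u
    have hc' := hcyc p A (ZMod T.l) R τ T.l hτ0 hτ1 hτ3 (MulAction.toPerm u⁻¹) (c u⁻¹)
    have hfx := hfxc p T A (MulAction.toPerm u⁻¹) (c u⁻¹)
    have hzo : zo (MulAction.toPerm u⁻¹ : Equiv.Perm A) (c u⁻¹) = a u := by
      have h3 : Nat.card {v : A → T.K // ∀ x, T.t (c u⁻¹ x)
          (v ((MulAction.toPerm u⁻¹ : Equiv.Perm A)⁻¹ x)) = v x} =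
          Nat.card {v : A → T.K // (mono T c hc).m u v = v} := by
        refine Nat.card_congr (Equiv.subtypeEquivRight fun v => ?_)
        have h4 : (∀ x, T.t (c u⁻¹ x) (v ((MulAction.toPerm u⁻¹ : Equiv.Perm A)⁻¹ x)) = v x) ↔
            (mono T c hc).m u⁻¹ v = v := by
          constructor
          · intro h
            funext x
            exact h x
          · intro h x
            exact congrFun h x
        rw [h4]
        constructor
        · intro h
          conv_lhs => rw [← h]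
          exact (mono T c hc).inv_right u v
        · intro h
          conv_lhs => rw [← h]
          exact (mono T c hc).inv_left u v
      rw [h3, ha] at hfx
      have := Nat.pow_right_injective T.prime.two_le hfx
      omega
    have hev := horp p hp2 A (MulAction.toPerm u⁻¹) k (by
      have h1 : ∀ m : ℕ, (MulAction.toPerm u⁻¹ : Equiv.Perm A) ^ m =
          MulAction.toPerm (u⁻¹ ^ m) := by
        intro m
        ext x
        have := (MulAction.toPermHom H A).map_pow u⁻¹ m
        exact (congrArg (fun g : Equiv.Perm A => g x) this).symm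
      rw [h1, inv_pow, hk, inv_one]
      ext x
      exact one_smul H x) (c u⁻¹)
    rw [hzo] at hc' hev
    set ν := nz (MulAction.toPerm u⁻¹ : Equiv.Perm A) (c u⁻¹) with hν
    rw [← hI, hΦ5 _ (I.er _)] at hc'
    have hsgn : ((-1 : ℤ) ^ (Fintype.card A + a u)) = (-1) ^ ν := by
      have h5 : Even (Fintype.card A + a u + ν) := by
        have : Fintype.card A + a u + ν = Fintype.card A + ν + a u := by ring
        rw [this]
        exact hev
      have h6 : ((-1 : ℤ) ^ (Fintype.card A + a u)) * (-1) ^ ν = 1 := by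
        rw [← pow_add]
        exact h5.neg_one_pow
      have h7 : ((-1 : ℤ) ^ ν) * (-1) ^ ν = 1 := by
        rw [← pow_add]
        exact (Even.add_self ν).neg_one_pow
      calc ((-1 : ℤ) ^ (Fintype.card A + a u)) =
          ((-1 : ℤ) ^ (Fintype.card A + a u)) * (((-1 : ℤ) ^ ν) * (-1) ^ ν) := by rw [h7, mul_one]
        _ = (((-1 : ℤ) ^ (Fintype.card A + a u)) * (-1) ^ ν) * (-1) ^ ν := by ring
        _ = _ := by rw [h6, one_mul]
    rw [hsgn]
    rw [hP, ← map_mul, hΦ5 _ (by rw [← mul_assoc, I.er])]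
    have hb1' : ∑ x, i.coeff (x * ((mono T c hc).s u x)⁻¹) = (b : R) := hb1
    rw [h2] at hb1'
    have hs2 : ((-1 : R) ^ ν) * (-1) ^ ν = 1 := by
      rw [← pow_add]
      exact (Even.add_self ν).neg_one_pow
    have h3 : (T.l : R) ^ (2 * Fintype.card A + 2) =
        (T.l : R) ^ (Fintype.card A + 1) * (T.l : R) ^ (Fintype.card A + 1) := by
      rw [← pow_add]
      congr 1
      ring
    rw [h3] at hb1'
    have h4 : (T.l : R) ^ (2 * a u) = (T.l : R) ^ a u * (T.l : R) ^ a u := by
      rw [← pow_add]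
      congr 1
      ring
    rw [h4] at hd'
    have hla : (T.l : R) ^ a u ≠ 0 := pow_ne_zero _ hl
    push_cast
    apply mul_right_cancel₀ hla
    set X := (I.r u * i).coeff 1 with hX
    set Y := (I.r u⁻¹).coeff 1 with hY
    set L := (T.l : R) ^ (Fintype.card A + 1) with hL
    set N := (T.l : R) ^ (2 * Fintype.card A) with hN
    set W := (T.l : R) ^ a u with hW
    set s := (-1 : R) ^ ν with hs
    -- hc' : L * Y = s * W, hb1' : L * L * X * Y = b, hd' : δ * (W * W) = N * b
    -- goal : N * (L * X) * W = s * δ * W * W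
    linear_combination (-(s * N * L * X)) * hc' + s * N * hb1' - s * hd' +
      (-(N * L * X * W)) * hs2

/-- the inequality of one level -/
theorem lvl (hsch : Pool.Agent.Helper98.EQ.S_SCH) (hone : Pool.Agent.Helper98.EQ.S_ONE)
    (hphi : Pool.Agent.Helper98.EQ.S_PHI) (himp : Pool.Agent.Helper98.EQ.S_IMP)
    (htru : Pool.Agent.Helper98.EQ.S_TRU) (hlft : Pool.Agent.Helper98.EQ.S_LFT)
    (hcyc : S_CYC2) (horp : S_ORP) (hfxc : S_FXC)
    (htrz : S_TRZ2) (hdmu : S_DMU) (hfin : S_FIN2) : S_LVL := by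
  intro p _ hp2 T A _ _ H _ _ hH _ c hc F _ _ _ C i hi1 hi2 hi3 a ha
  obtain ⟨R, _, _, _, _, hch, hmax, ⟨φ⟩⟩ := Pool.Agent.Helper14.EP.WV.t p F
  set C₀ : Chr T (ResidueField R) := C.map (φ.symm : F →+* ResidueField R) with hC₀
  set i₀ := MonoidAlgebra.mapRingHom (Hs T A) (φ.symm : F →+* ResidueField R) i with hi₀
  obtain ⟨C', hC'⟩ := (pCHR p T).2 R C₀
  have h0 : ee (C'.map (residue R)) A * i₀ = i₀ := by
    rw [hC']
    obtain ⟨-, -, -, -, -, -, hb7⟩ := pHB p T A F C
    rw [hC₀, ← (hb7 _ (φ.symm : F →+* ResidueField R)).1, hi₀, ← map_mul, hi2]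
  obtain ⟨i', hi'1, hi'2, hi'3, hred⟩ := hlft p T A H (mono T c hc) R C' i₀
    (by rw [hi₀, ← map_mul, hi1]) h0 (by
      intro d g
      rw [hi₀, coeff_mapRingHom, coeff_mapRingHom, hi3 d g])
  have h1 := lnum hsch hone hphi himp htru hcyc horp hfxc htrz hdmu hfin hp2 T A H hH c hc R hch
    hmax C' i' hi'1 hi'2 hi'3 a ha
  have h2 : ∀ B : Set (Hs T A), dm (rs B (red R (Hs T A) i')) = dm (rs B i) := by
    intro B
    rw [hred, hi₀]
    have h3 : rs B (MonoidAlgebra.mapRingHom (Hs T A) (φ.symm : F →+* ResidueField R) i) =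
        MonoidAlgebra.mapRingHom (Hs T A) (φ.symm : F →+* ResidueField R) (rs B i) := by
      ext g
      by_cases hg : g ∈ B
      · rw [rs_mem _ hg, coeff_mapRingHom, coeff_mapRingHom, rs_mem _ hg]
      · rw [rs_not _ hg, coeff_mapRingHom, rs_not _ hg, map_zero]
    rw [h3, dm_map]
  rw [Finset.sum_congr rfl fun u _ => by rw [h2]] at h1
  exact h1

end Pool.Agent.Helper47.ER
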