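import Pool.Agent.Helper47.ER.Ind

/-!
# Project ER: the theorem from the goals (assembly)
-/

set_option autoImplicit false
set_option linter.unusedSectionVars false

namespace Pool.Agent.Helper47.ER

open MonoidAlgebra IsLocalRing Pool.Agent.Helper17.PF
open Pool.Agent.Helper98.EQ (SA Iv Imp Coc mono tn pm nz AS cc coeff_mul_sum iv_comm)
open Pool.Agent.Helper47.EP (Dat Chr Hs Om ee ev kap dm rs pHB pSIM pCHR card_Hs dm_map cred
  rs_mem rs_not)

variable {p : ℕ} {T : Dat p}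

/-- the elements `r` for the action through a homomorphism -/
noncomputable def pullImp {A : Type} [Fintype A] [DecidableEq A] {D Q : Type} [Group D] [Group Q]
    {M : SA T A Q} (φ : D →* Q) {R : Type} [CommRing R] {C : Chr T R} (I : Imp M C) :
    Imp (pull M φ) C where
  r d := I.r (φ d)
  er d := I.er _
  one := by rw [map_one, I.one]
  mul d d' := by rw [map_mul, I.mul]
  conj d g := I.conj (φ d) g

theorem fx_map {A : Type} [Fintype A] [DecidableEq A] {H Q : Type} [Group H] [Group Q]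
    (M : SA T A Q) (M' : SA T A H) (ι : H →* Q) (hM : ∀ h v, M'.m h v = M.m (ι h) v)
    (W : Subgroup H) : fx M' W = fx M (W.map ι) := by
  unfold fx
  refine Nat.card_congr (Equiv.subtypeEquivRight fun v => ⟨fun h => ?_, fun h => ?_⟩)
  · rintro _ ⟨w, hw, rfl⟩
    rw [← hM]
    exact h w hw
  · intro w hw
    rw [hM]
    exact h _ ⟨w, hw, rfl⟩

theorem tp_map {H Q : Type} [Group H] [Group Q] (ι : H →* Q) (hι : Function.Injective ι)
    (W : Subgroup H) : tp p (W.map ι) = tp p W := by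
  unfold tp
  symm
  refine Nat.card_eq_of_bijective
    (fun x : {x : H // x ∈ W ∧ x ^ p = 1} => (⟨ι x.1, ⟨x.1, x.2.1, rfl⟩, by
      rw [← map_pow, x.2.2, map_one]⟩ : {x : Q // x ∈ W.map ι ∧ x ^ p = 1})) ⟨?_, ?_⟩
  · intro x y h
    exact Subtype.ext (hι (congrArg Subtype.val h))
  · rintro ⟨_, ⟨w, hw, rfl⟩, h2⟩
    refine ⟨⟨w, hw, ?_⟩, rfl⟩
    apply hι
    rw [map_pow, h2, map_one]

theorem main (hfld : S_FLD2) (hhc : S_HC) (hpar2 : S_PAR2) (hind : S_IND)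
    (hset : Pool.Agent.Helper98.EQ.S_SET) (hsch : Pool.Agent.Helper98.EQ.S_SCH)
    (hone : Pool.Agent.Helper98.EQ.S_ONE) (hphi : Pool.Agent.Helper98.EQ.S_PHI)
    (himp : Pool.Agent.Helper98.EQ.S_IMP) (hblocks : Pool.Agent.Helper98.EQ.S_BLOCKS) :
    S_MAIN := by
  intro p _ hp2 𝒪 _ _ _ _ _ _ D _ _ hD Q _ φ hφ k r hk ι hι
  classical
  have hp := (Fact.out : p.Prime)
  have : NeZero (p ^ k) := ⟨pow_ne_zero _ hp.ne_zero⟩
  have hQf : Finite Q := Finite.of_surjective φ hφ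
  have hQ : IsPGroup p Q := hD.of_surjective φ hφ
  obtain ⟨T, hSc⟩ := hfld p hp hp2
  obtain ⟨Cb⟩ := (pCHR p T).1 (ResidueField 𝒪)
  obtain ⟨C, hC⟩ := (pCHR p T).2 𝒪 Cb
  obtain ⟨hc, hset2⟩ := hset p Q
  obtain ⟨S, hS1, hS2, hS3⟩ := hsch p T 𝒪 C
  obtain ⟨τ, hτ0, hτ1, hτ2, hτ3⟩ := hone p T 𝒪 C S hS1 hS2 hS3
  obtain ⟨Φ, hΦ1, hΦ2, hΦ3, hΦ4, hΦ5⟩ := hphi p T (AS p Q) 𝒪 C S hS1 hS2 hS3
  obtain ⟨I, -⟩ := himp p T (AS p Q) Q cc hc 𝒪 C S τ hτ0 hτ1 hτ2 Φ hΦ1 hΦ2 hΦ3 hΦ4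
  obtain ⟨i, n, hi1, hi2, hi3, hi4, hi5, hi6⟩ := hblocks p T (AS p Q) D hD
    (pull (mono T cc hc) φ) (by
      intro v hv
      funext a
      obtain ⟨q, hq1, hq2⟩ := hset2 a
      obtain ⟨d, rfl⟩ := hφ q
      have h1 := congrFun (hv d) a
      have h2 : (φ d)⁻¹ • a = a := by
        rw [inv_smul_eq_iff, hq1]
      have h3 : T.t (cc (φ d) a) (v ((φ d)⁻¹ • a)) = v a := h1
      rw [h2] at h3
      exact T.inj _ hq2 _ h3) 𝒪 C (pullImp φ I)
  refine ⟨n, hi6, ?_⟩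
  let act : MulAction (Multiplicative (Fin r → ZMod (p ^ k))) (AS p Q) :=
    MulAction.compHom (AS p Q) ι
  let c' : Multiplicative (Fin r → ZMod (p ^ k)) → AS p Q → ZMod p := fun h a => cc (ι h) a
  have hact : ∀ (h : Multiplicative (Fin r → ZMod (p ^ k))) (a : AS p Q), h • a = ι h • a :=
    fun _ _ => rfl
  have hc' : Coc c' := by
    intro h h' a
    show cc (ι (h * h')) a = cc (ι h) a + cc (ι h') (h⁻¹ • a)
    rw [map_mul, hc, hact, map_inv]
  have hM : ∀ h v, (mono T c' hc').m h v = (mono T cc hc).m (ι h) v := by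
    intro h v
    funext a
    show T.t (cc (ι h) a) (v (h⁻¹ • a)) = T.t (cc (ι h) a) (v ((ι h)⁻¹ • a))
    rw [hact, map_inv]
  have h1 := hind p hp2 T hSc k (Multiplicative (Fin r → ZMod (p ^ k))) (hQ.of_injective ι hι)
    (ResidueField 𝒪) (C.map (residue 𝒪)) r ⊥ (AS p Q) c' hc' (Fintype.card (AS p Q)) (by
      intro u hu v
      rw [Subgroup.mem_bot] at hu
      rw [hu]
      exact (mono T c' hc').one v) (by
      intro W _ a ρ hf ht
      refine hpar2 p T Q hp2 hQ hc (W.map ι) ?_ a ρ ?_ ?_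
      · rintro _ ⟨x, hx, rfl⟩ _ ⟨y, hy, rfl⟩
        rw [← map_mul, ← map_mul, mul_comm]
      · rw [← fx_map (mono T cc hc) (mono T c' hc') ι hM]
        exact hf
      · rw [tp_map ι hι]
        exact ht) (hhc p k r hk) i hi1 hi2 (by
      intro h g
      obtain ⟨d, hd⟩ := hφ (ι h)
      have h2 := hi3 d g
      rw [SA.s_apply] at h2 ⊢
      rw [← h2]
      congr 1
      ext1
      · show (mono T c' hc').m h g.v = (mono T cc hc).m (φ d) g.v
        rw [hM, hd]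
      · rfl) hi4
  have h2 : bet p k r * T.l ^ Fintype.card (AS p Q) ≤ n * T.l ^ Fintype.card (AS p Q) := by
    calc _ ≤ dm i := h1
      _ ≤ T.l ^ Fintype.card (AS p Q) * n := hi5
      _ = _ := mul_comm _ _
  exact Nat.le_of_mul_le_mul_right h2 (pow_pos T.prime.pos _)

end Pool.Agent.Helper47.ER
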