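import Pool.Agent.Helper47.ER.Main

/-!
# Project ER: the size of the bound
-/

set_option autoImplicit false

namespace Pool.Agent.Helper47.ER

/-- `(∏_{1 ≤ j ≤ r} (p^(k j) - p^((k-1) j)))² p^r ≥ (p^(k r))^(r+1)` -/
theorem bet_sq (p : ℕ) (hp : 3 ≤ p) (k r : ℕ) (hk : 1 ≤ k) :
    (p ^ (k * r)) ^ (r + 1) ≤ bet p k r ^ 2 * p ^ r := by
  unfold bet
  induction r with
  | zero => simp
  | succ r ih =>
    rw [Finset.prod_range_succ, mul_pow]
    obtain ⟨k, rfl⟩ : ∃ k', k = k' + 1 := ⟨k - 1, by omega⟩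
    rw [Nat.add_sub_cancel] at ih ⊢
    set s := r + 1 with hs
    have h1 : p ^ ((k + 1) * s) - p ^ (k * s) = p ^ (k * s) * (p ^ s - 1) := by
      rw [Nat.mul_sub, mul_one, ← pow_add]
      congr 2
      ring
    have h2 : p ^ (2 * r + 1) ≤ (p ^ s - 1) ^ 2 := by
      have h2 : 1 ≤ p ^ r := Nat.one_le_pow _ _ (by omega)
      obtain ⟨m, hm⟩ : ∃ m, p ^ s = m + 1 := ⟨p ^ s - 1, by
        have : 1 ≤ p ^ s := Nat.one_le_pow _ _ (by omega)
        omega⟩
      rw [hm, Nat.add_sub_cancel]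
      have h3 : p ^ (2 * r + 1) * p = (m + 1) ^ 2 := by
        rw [← hm, hs]
        ring
      have h4 : 3 ≤ m + 1 := by
        rw [← hm, hs, pow_succ]
        nlinarith
      have h5 : p ^ (2 * r + 1) * 3 ≤ (m + 1) ^ 2 := by
        rw [← h3]
        exact Nat.mul_le_mul_left _ hp
      nlinarith
    rw [h1]
    calc (p ^ ((k + 1) * s)) ^ (s + 1)
        = (p ^ ((k + 1) * r)) ^ (r + 1) * (p ^ (k * s)) ^ 2 * p ^ (2 * r + 1) * p := by
          rw [hs]
          simp only [← pow_mul, ← pow_add]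
          rw [← pow_succ]
          congr 1
          ring
      _ ≤ ((∏ j ∈ Finset.range r, (p ^ ((k + 1) * (j + 1)) - p ^ (k * (j + 1)))) ^ 2 * p ^ r) *
            (p ^ (k * s)) ^ 2 * (p ^ s - 1) ^ 2 * p := by
          gcongr
      _ = _ := by
          rw [hs, pow_succ p r]
          ring

end Pool.Agent.Helper47.ER
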